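import Pool.Agent.Lib.MP_16d934_gt.Bridge

/-! The union of the rotated leaves: symmetries and normal forms. -/

set_option autoImplicit false

open Set Metric Filter Topology
open scoped InnerProductSpace NNReal Real

noncomputable section

namespace Pool.Agent.Lib.MP_16d934_gt.X

open ELaw

/-- the angle `l` is `π / n` -/
structure Ang (l : ℝ) (n : ℕ) : Prop where
  two : 2 ≤ n
  eq : l * n = π

/-- the union of the rotated leaves -/
def Xi (l : ℝ) : Set E4 :=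
  {x | ∃ j k : ℤ, Even (j + k) ∧ ∃ m ∈ leafSet l, x = rot (j * (π / 2)) (k * l) m}

/-- near `p` the set `Xi l` is a minimal surface -/
def Good (l : ℝ) (p : E4) : Prop := ∃ S', IsMin S' ∧ p ∈ S' ∧ 𝓝[S'] p = 𝓝[Xi l] p

/-- the second complex coordinate lies in the open double sector around the angle `l / 2` -/
def Wn (l : ℝ) : Set E4 := {x | ‖wc x‖ * Real.cos l < (cis (-(l / 2)) * wc x).re}

variable {l : ℝ} {n : ℕ}

theorem Ang.pos (h : Ang l n) : 0 < l := by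
  have h2 : (2 : ℝ) ≤ n := by exact_mod_cast h.two
  refine (mul_pos_iff_of_pos_right (show (0 : ℝ) < n by linarith)).1 ?_
  rw [h.eq]
  exact Real.pi_pos

theorem Ang.le (h : Ang l n) : l ≤ π / 2 := by
  have h2 : (2 : ℝ) ≤ n := by exact_mod_cast h.two
  nlinarith [h.eq, h.pos]

theorem Ang.mem (h : Ang l n) : l ∈ Ioo 0 π := ⟨h.pos, by linarith [h.le, Real.pi_pos]⟩

theorem Ang.leaf (h : Ang l n) : IsLeaf (aL l) √2 (lf l) := lfS_all l h.mem

theorem ang_two : Ang (π / 2) 2 := ⟨le_rfl, by push_cast; ring⟩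

theorem ang_gam {γ : ℕ} (hγ : 1 ≤ γ) : Ang (π / (γ + 1)) (γ + 1) :=
  ⟨by omega, by push_cast; field_simp⟩

/-! ### Coordinates -/

theorem rot0 (θ φ : ℝ) (x : E4) : rot θ φ x 0 = Real.cos θ * x 0 - Real.sin θ * x 1 := by
  simp [rot, mkO_apply]; ring

theorem rot1 (θ φ : ℝ) (x : E4) : rot θ φ x 1 = Real.sin θ * x 0 + Real.cos θ * x 1 := by
  simp [rot, mkO_apply]; ring

theorem rot2 (θ φ : ℝ) (x : E4) : rot θ φ x 2 = Real.cos φ * x 2 - Real.sin φ * x 3 := by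
  simp [rot, mkO_apply]; ring

theorem rot3 (θ φ : ℝ) (x : E4) : rot θ φ x 3 = Real.sin φ * x 2 + Real.cos φ * x 3 := by
  simp [rot, mkO_apply]; ring

theorem rf0_c (x : E4) : rf0 x 0 = -x 0 ∧ rf0 x 1 = x 1 ∧ rf0 x 2 = x 2 ∧ rf0 x 3 = x 3 := by
  simp [rf0, mkO_apply]

theorem rf1_c (x : E4) : rf1 x 0 = x 0 ∧ rf1 x 1 = -x 1 ∧ rf1 x 2 = x 2 ∧ rf1 x 3 = x 3 := by
  simp [rf1, mkO_apply]

theorem rf3_c (x : E4) : rf3 x 0 = x 0 ∧ rf3 x 1 = x 1 ∧ rf3 x 2 = x 2 ∧ rf3 x 3 = -x 3 := by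
  simp [rf3, mkO_apply]

theorem ext4 {x y : E4} (h0 : x 0 = y 0) (h1 : x 1 = y 1) (h2 : x 2 = y 2) (h3 : x 3 = y 3) :
    x = y := by
  ext i
  fin_cases i
  exacts [h0, h1, h2, h3]

theorem cis_re (φ : ℝ) : (cis φ).re = Real.cos φ := Complex.exp_ofReal_mul_I_re φ

theorem cis_im (φ : ℝ) : (cis φ).im = Real.sin φ := Complex.exp_ofReal_mul_I_im φ

theorem zc_rot (θ φ : ℝ) (x : E4) : zc (rot θ φ x) = cis θ * zc x :=
  Complex.ext (by simp [zc, rot0, cis_re, cis_im]) (by simp [zc, rot1, cis_re, cis_im]; ring)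

theorem wc_rot (θ φ : ℝ) (x : E4) : wc (rot θ φ x) = cis φ * wc x :=
  Complex.ext (by simp [wc, rot2, cis_re, cis_im]) (by simp [wc, rot3, cis_re, cis_im]; ring)

theorem rf1_rf1 (x : E4) : rf1 (rf1 x) = x := ext4 (by simp [rf1_c]) (by simp [rf1_c])
  (by simp [rf1_c]) (by simp [rf1_c])

theorem rf0_rf0 (x : E4) : rf0 (rf0 x) = x := ext4 (by simp [rf0_c]) (by simp [rf0_c])
  (by simp [rf0_c]) (by simp [rf0_c])

theorem rf3_rf3 (x : E4) : rf3 (rf3 x) = x := ext4 (by simp [rf3_c]) (by simp [rf3_c])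
  (by simp [rf3_c]) (by simp [rf3_c])

theorem rf1_rot (θ φ : ℝ) (x : E4) : rf1 (rot θ φ x) = rot (-θ) φ (rf1 x) :=
  ext4 (by simp [rf1_c, rot0]) (by simp [rf1_c, rot1]; ring) (by simp [rf1_c, rot2])
    (by simp [rf1_c, rot3])

theorem rf3_rot (θ φ : ℝ) (x : E4) : rf3 (rot θ φ x) = rot θ (-φ) (rf3 x) :=
  ext4 (by simp [rf3_c, rot0]) (by simp [rf3_c, rot1]) (by simp [rf3_c, rot2])
    (by simp [rf3_c, rot3]; ring)

theorem rf0_eq (x : E4) : rf0 x = rot π 0 (rf1 x) :=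
  ext4 (by simp [rf0_c, rf1_c, rot0]) (by simp [rf0_c, rf1_c, rot1])
    (by simp [rf0_c, rf1_c, rot2]) (by simp [rf0_c, rf1_c, rot3])

theorem cj_def (x : E4) : cj x = rf3 (rf1 x) := rfl

/-! ### The leaf -/

theorem O0_rf1 (y : P2) (z : ℝ) : rf1 (O0 (gn y z)) = O0 (gn (y.1, -y.2) z) := by
  obtain ⟨a0, a1, a2, a3⟩ := tetS_all.coord y z
  obtain ⟨b0, b1, b2, b3⟩ := tetS_all.coord (y.1, -y.2) z
  have e : rho (y.1, -y.2) z = rho y z := by simp [rho]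
  refine ext4 ?_ ?_ ?_ ?_ <;> simp only [rf1_c, a0, a1, a2, a3, b0, b1, b2, b3, e, neg_div]

theorem O0_rf3 (y : P2) (z : ℝ) : rf3 (O0 (gn y z)) = O0 (gn (-y.1, y.2) z) := by
  obtain ⟨a0, a1, a2, a3⟩ := tetS_all.coord y z
  obtain ⟨b0, b1, b2, b3⟩ := tetS_all.coord (-y.1, y.2) z
  have e : rho (-y.1, y.2) z = rho y z := by simp [rho]
  refine ext4 ?_ ?_ ?_ ?_ <;> simp only [rf3_c, a0, a1, a2, a3, b0, b1, b2, b3, e, neg_div]

theorem rf1_M (h : Ang l n) {m : E4} (hm : m ∈ leafSet l) : rf1 m ∈ leafSet l := by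
  obtain ⟨y, hy, rfl⟩ := hm
  refine ⟨(y.1, -y.2), by simpa [Rh] using hy, ?_⟩
  rw [gX, gX, O0_rf1, (tetS_all.ev _ _ _ h.leaf y hy).2]

theorem rf3_M (h : Ang l n) {m : E4} (hm : m ∈ leafSet l) : rf3 m ∈ leafSet l := by
  obtain ⟨y, hy, rfl⟩ := hm
  refine ⟨(-y.1, y.2), by simpa [Rh] using hy, ?_⟩
  rw [gX, gX, O0_rf3, (tetS_all.ev _ _ _ h.leaf y hy).1]

theorem cj_M (h : Ang l n) {m : E4} (hm : m ∈ leafSet l) : cj m ∈ leafSet l :=
  rf3_M h (rf1_M h hm)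

theorem rf1_opn (h : Ang l n) {m : E4} (hm : m ∈ opn l) : rf1 m ∈ opn l := by
  obtain ⟨y, hy, rfl⟩ := hm
  refine ⟨(y.1, -y.2), by simpa [Rho] using hy, ?_⟩
  rw [gX, gX, O0_rf1, (tetS_all.ev _ _ _ h.leaf y (rho_sub _ _ hy)).2]

theorem M_cases (h : Ang l n) {m : E4} (hm : m ∈ leafSet l) :
    m ∈ opn l ∨ m ∈ Quad (aL l) √2 := by
  rwa [leaf_eq tetS_all lfS_all h.mem] at hm

theorem opn_M {m : E4} (hm : m ∈ opn l) : m ∈ leafSet l := image_mono (rho_sub _ _) hm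

theorem quad_M (h : Ang l n) {m : E4} (hm : m ∈ Quad (aL l) √2) : m ∈ leafSet l := by
  rw [leaf_eq tetS_all lfS_all h.mem]
  exact Or.inr hm

/-- points of the four edges lie on the leaf -/
theorem arc_M (h : Ang l n) {s t α β : ℝ} (hs : s = l / 2 ∨ s = -(l / 2))
    (ht : t = π / 4 ∨ t = -(π / 4)) (hα : 0 ≤ α) (hβ : 0 ≤ β) (h1 : α ^ 2 + β ^ 2 = 1) :
    α • vP s + β • vQ t ∈ leafSet l := quad_M h (arc_quad h.mem hs ht α β hα hβ h1)

theorem M_tet (h : Ang l n) {m : E4} (hm : m ∈ leafSet l) : m ∈ Tet (aL l) √2 := by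
  rcases M_cases h hm with k | k
  · have := opn_tet tetS_all lfS_all h.mem k
    exact ⟨this.1, this.2.1.le, this.2.2.le⟩
  · exact ⟨k.1, k.2.1.le, k.2.2.le⟩

theorem s2_pos : (0 : ℝ) < √2 := by positivity

theorem tet_z {m : E4} (hm : m ∈ Tet (aL l) √2) : |m 1| ≤ m 0 :=
  le_of_mul_le_mul_left hm.2.2 s2_pos

theorem aL_le (h : Ang l n) {p q : ℝ} :
    √2 * p ≤ aL l * q ↔ p * Real.cos (l / 2) ≤ Real.sin (l / 2) * q := by
  have c := (trig h.mem).2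
  rw [aL, mul_assoc, mul_le_mul_iff_right₀ s2_pos, Real.tan_eq_sin_div_cos, div_mul_eq_mul_div,
    le_div_iff₀ c]

theorem aL_lt (h : Ang l n) {p q : ℝ} :
    √2 * p < aL l * q ↔ p * Real.cos (l / 2) < Real.sin (l / 2) * q := by
  have c := (trig h.mem).2
  rw [aL, mul_assoc, mul_lt_mul_iff_right₀ s2_pos, Real.tan_eq_sin_div_cos, div_mul_eq_mul_div,
    lt_div_iff₀ c]

/-! ### Symmetries -/

theorem M_Xi {m : E4} (hm : m ∈ leafSet l) : m ∈ Xi l :=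
  ⟨0, 0, by simp, m, hm, by simp [rot_zero]⟩

theorem Xi_rot {j k : ℤ} (e : Even (j + k)) {x : E4} (hx : x ∈ Xi l) :
    rot (j * (π / 2)) (k * l) x ∈ Xi l := by
  obtain ⟨j', k', e', m, hm, rfl⟩ := hx
  refine ⟨j + j', k + k', by rw [add_add_add_comm]; exact e.add e', m, hm, ?_⟩
  rw [rot_rot]
  congr 2 <;> push_cast <;> ring

theorem Xi_rf1 (h : Ang l n) {x : E4} (hx : x ∈ Xi l) : rf1 x ∈ Xi l := by
  obtain ⟨j, k, e, m, hm, rfl⟩ := hx
  refine ⟨-j, k, ?_, _, rf1_M h hm, ?_⟩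
  · rw [Int.even_add] at e ⊢
    simpa using e
  · rw [rf1_rot]
    congr 2
    push_cast
    ring

theorem Xi_rf3 (h : Ang l n) {x : E4} (hx : x ∈ Xi l) : rf3 x ∈ Xi l := by
  obtain ⟨j, k, e, m, hm, rfl⟩ := hx
  refine ⟨j, -k, ?_, _, rf3_M h hm, ?_⟩
  · rw [Int.even_add] at e ⊢
    simpa using e
  · rw [rf3_rot]
    congr 2
    push_cast
    ring

theorem Xi_pi {x : E4} (hx : x ∈ Xi l) : rot π 0 x ∈ Xi l := by
  have := Xi_rot (j := 2) (k := 0) (by decide) hx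
  rwa [show ((2 : ℤ) : ℝ) * (π / 2) = π by push_cast; ring, Int.cast_zero, zero_mul] at this

theorem Xi_rf0 (h : Ang l n) {x : E4} (hx : x ∈ Xi l) : rf0 x ∈ Xi l :=
  rf0_eq x ▸ Xi_pi (Xi_rf1 h hx)

theorem Xi_gR (h : Ang l n) {s t : ℝ} (hs : s = l / 2 ∨ s = -(l / 2))
    (ht : t = π / 4 ∨ t = -(π / 4)) {x : E4} (hx : x ∈ Xi l) : gR s t x ∈ Xi l := by
  have hc : cj x ∈ Xi l := Xi_rf3 h (Xi_rf1 h hx)
  obtain ⟨k, hk, e⟩ : ∃ k : ℤ, Odd k ∧ 2 * s = k * l := by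
    rcases hs with rfl | rfl
    exacts [⟨1, by decide, by push_cast; ring⟩, ⟨-1, by decide, by push_cast; ring⟩]
  obtain ⟨j, hj, e'⟩ : ∃ j : ℤ, Odd j ∧ 2 * t = j * (π / 2) := by
    rcases ht with rfl | rfl
    exacts [⟨1, by decide, by push_cast; ring⟩, ⟨-1, by decide, by push_cast; ring⟩]
  rw [gR_def, e, e']
  exact Xi_rot (hj.add_odd hk) hc

theorem Xi_norm (h : Ang l n) {x : E4} (hx : x ∈ Xi l) : ‖x‖ = 1 := by
  obtain ⟨j, k, -, m, hm, rfl⟩ := hx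
  rw [LinearIsometryEquiv.norm_map, (M_tet h hm).1]

theorem orbit_eq {γ : ℕ} (hγ : 1 ≤ γ) :
    {x | Orbit γ (leafSet (π / (γ + 1))) x} = Xi (π / (γ + 1)) := by
  have h := ang_gam hγ
  have hh : hf γ = π / (γ + 1) / 2 := by rw [hf]; field_simp
  refine Subset.antisymm (fun x hx => orb_ind hh (P := fun x => x ∈ Xi _) (fun _ => M_Xi)
    (fun s t x hs ht _ => Xi_gR h hs ht) hx) ?_
  rintro _ ⟨j, k, e, m, hm, rfl⟩
  obtain ⟨j', rfl | rfl⟩ := Int.even_or_odd' j <;> obtain ⟨k', rfl | rfl⟩ := Int.even_or_odd' k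
  · have := orb_rot hh j' k' (Orbit.base m hm)
    rw [mem_ofPred_eq]
    convert this using 3 <;> push_cast <;> ring
  · exact absurd e (by rw [Int.not_even_iff_odd]; exact ⟨j' + k', by ring⟩)
  · exact absurd e (by rw [Int.not_even_iff_odd]; exact ⟨j' + k', by ring⟩)
  · have := orb_rot hh j' k' (orb_step hh (Or.inl rfl) (Or.inl rfl) (Orbit.base _ (cj_M h hm)))
    rw [gR_def, cj_cj, rot_rot] at this
    rw [mem_ofPred_eq]
    convert this using 3 <;> push_cast <;> ring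

/-! ### Sectors -/

theorem cos_gt {c x : ℝ} (hc : 0 ≤ c) (h : Real.cos c < Real.cos x) :
    ∃ m : ℤ, |x - m * (2 * π)| < c := by
  have hp : 0 < 2 * π := by positivity
  refine ⟨toIocDiv hp (-π) x, ?_⟩
  have h1 := toIocMod_mem_Ioc hp (-π) x
  have h2 : toIocMod hp (-π) x = x - toIocDiv hp (-π) x * (2 * π) := by
    rw [toIocMod, zsmul_eq_mul]
  rw [← h2]
  have h3 : Real.cos |toIocMod hp (-π) x| = Real.cos x := by
    rw [Real.cos_abs, h2, Real.cos_sub_int_mul_two_pi]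
  by_contra h4
  have := Real.cos_le_cos_of_nonneg_of_le_pi hc
    (abs_le.2 ⟨h1.1.le, by linarith [h1.2]⟩) (not_lt.1 h4)
  linarith

/-- polar form of the points of a closed sector -/
theorem sec_polar (h : Ang l n) {w : ℂ} (hw : |w.im| * Real.cos (l / 2) ≤ Real.sin (l / 2) * w.re) :
    ∃ α : ℝ, |α| ≤ l / 2 ∧ w = ‖w‖ * cis α := by
  obtain ⟨t1, t2⟩ := trig h.mem
  refine ⟨w.arg, ?_, (Complex.norm_mul_exp_arg_mul_I w).symm⟩
  by_cases h0 : w = 0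
  · simp [h0]; linarith [h.pos]
  have hn : 0 < ‖w‖ := norm_pos_iff.2 h0
  by_contra h4
  have h5 := Complex.abs_arg_le_pi w
  have h6 : Real.sin (|w.arg| - l / 2) ≤ 0 := by
    have a : Real.sin |w.arg| = |w.im| / ‖w‖ := by
      rw [← abs_of_pos hn, ← abs_div, ← Complex.sin_arg, Real.abs_sin_eq_sin_abs_of_abs_le_pi h5]
    rw [Real.sin_sub, Real.cos_abs, a, Complex.cos_arg h0, div_mul_eq_mul_div, div_mul_eq_mul_div,
      ← sub_div]
    exact div_nonpos_of_nonpos_of_nonneg (by linarith) hn.le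
  exact absurd h6 (not_le.2 (Real.sin_pos_of_pos_of_lt_pi (by linarith [not_le.1 h4])
    (by linarith [h.pos])))

theorem sec_gen (h : Ang l n) {w : ℂ} (hw : |w.im| * Real.cos (l / 2) ≤ Real.sin (l / 2) * w.re)
    (k : ℤ) {c β : ℝ} (hc : 0 ≤ c)
    (h1 : ‖w‖ * Real.cos c < (cis (-β) * (cis (k * l) * w)).re) :
    ∃ i : ℤ, |((k - 2 * n * i : ℤ) : ℝ) * l - β| < c + l / 2 := by
  obtain ⟨α, hα, e⟩ := sec_polar h hw
  have e2 : (cis (-β) * (cis (k * l) * w)).re = ‖w‖ * Real.cos (-β + (k * l + α)) := by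
    rw [← cis_re, DHom.cis_add, DHom.cis_add, ← Complex.re_ofReal_mul]
    congr 1
    linear_combination (cis (-β) * cis (k * l)) * e
  rw [e2] at h1
  obtain ⟨i, hi⟩ := cos_gt hc (lt_of_mul_lt_mul_left h1 (norm_nonneg _))
  refine ⟨i, ?_⟩
  have e3 : ((k - 2 * n * i : ℤ) : ℝ) * l - β = (-β + (k * l + α) - i * (2 * π)) - α := by
    push_cast
    linear_combination (-2 * (i : ℝ)) * h.eq
  rw [e3]
  exact (abs_sub _ _).trans_lt (by linarith)

/-- a rotated point of the closed sector lies in the open sector -/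
theorem sec0 (h : Ang l n) {w : ℂ} (hw : |w.im| * Real.cos (l / 2) ≤ Real.sin (l / 2) * w.re)
    {k : ℤ} (h1 : |(cis (k * l) * w).im| * Real.cos (l / 2)
      < Real.sin (l / 2) * (cis (k * l) * w).re) : ∃ i : ℤ, k = 2 * n * i := by
  obtain ⟨t1, t2⟩ := trig h.mem
  have hl := h.pos
  set w' := cis (k * l) * w with hw'
  have n1 : ‖w'‖ = ‖w‖ := by rw [hw', norm_mul, DHom.norm_cis, one_mul]
  have p0 : 0 ≤ |w'.im| * Real.cos (l / 2) := by positivity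
  have p1 : 0 < w'.re := (mul_pos_iff_of_pos_left t1).1 (p0.trans_lt h1)
  have h2 : ‖w‖ * Real.cos (l / 2) < (cis (-0) * w').re := by
    rw [neg_zero, show cis 0 = 1 by simp [cis], one_mul, ← n1]
    refine lt_of_pow_lt_pow_left₀ 2 p1.le ?_
    have a := pow_lt_pow_left₀ h1 p0 two_ne_zero
    rw [mul_pow, sq_abs, mul_pow] at a
    rw [mul_pow, Complex.sq_norm, Complex.normSq_apply]
    nlinarith [Real.sin_sq_add_cos_sq (l / 2)]
  obtain ⟨i, hi⟩ := sec_gen h hw k (by linarith) h2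
  refine ⟨i, sub_eq_zero.1 (Int.abs_lt_one_iff.1 ?_)⟩
  rw [sub_zero, abs_mul, abs_of_pos hl] at hi
  have : |((k - 2 * n * i : ℤ) : ℝ)| < 1 := by nlinarith
  exact_mod_cast this

/-- a rotated point of the closed sector lies in the open double sector -/
theorem sec01 (h : Ang l n) {w : ℂ} (hw : |w.im| * Real.cos (l / 2) ≤ Real.sin (l / 2) * w.re)
    {k : ℤ} (h1 : ‖w‖ * Real.cos l < (cis (-(l / 2)) * (cis (k * l) * w)).re) :
    ∃ i : ℤ, k = 2 * n * i ∨ k = 2 * n * i + 1 := by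
  have hl := h.pos
  obtain ⟨i, hi⟩ := sec_gen h hw k hl.le h1
  rw [abs_lt] at hi
  have a : (-1 : ℝ) < ((k - 2 * n * i : ℤ) : ℝ) := by nlinarith [hi.1]
  have b : ((k - 2 * n * i : ℤ) : ℝ) < 2 := by nlinarith [hi.2]
  have a' : -1 < k - 2 * n * i := by exact_mod_cast a
  have b' : k - 2 * n * i < 2 := by exact_mod_cast b
  exact ⟨i, by omega⟩

theorem tet_wc (h : Ang l n) {m : E4} (hm : m ∈ Tet (aL l) √2) :
    |(wc m).im| * Real.cos (l / 2) ≤ Real.sin (l / 2) * (wc m).re := (aL_le h).1 hm.2.1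

theorem tet_zc {m : E4} (hm : m ∈ Tet (aL l) √2) :
    |(zc m).im| * Real.cos (π / 2 / 2) ≤ Real.sin (π / 2 / 2) * (zc m).re := by
  rw [show π / 2 / 2 = π / 4 by ring, Real.cos_pi_div_four, Real.sin_pi_div_four, mul_comm]
  exact mul_le_mul_of_nonneg_left (tet_z hm) (by positivity)

theorem z0 {m : E4} (hm : m ∈ Tet (aL l) √2) {j : ℤ} {φ : ℝ}
    (h1 : |rot (j * (π / 2)) φ m 1| < rot (j * (π / 2)) φ m 0) : ∃ i : ℤ, j = 4 * i := by
  obtain ⟨i, hi⟩ := sec0 ang_two (tet_zc hm) (k := j) (by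
    rw [← zc_rot _ φ, show π / 2 / 2 = π / 4 by ring, Real.cos_pi_div_four, Real.sin_pi_div_four,
      mul_comm]
    exact mul_lt_mul_of_pos_left h1 (by positivity))
  exact ⟨i, by rw [hi]; push_cast; ring⟩

theorem z01 {m : E4} (hm : m ∈ Tet (aL l) √2) {j : ℤ} {φ : ℝ}
    (h1 : 0 < rot (j * (π / 2)) φ m 0 + rot (j * (π / 2)) φ m 1) :
    ∃ i : ℤ, j = 4 * i ∨ j = 4 * i + 1 := by
  obtain ⟨i, hi⟩ := sec01 ang_two (tet_zc hm) (k := j) (by
    rw [← zc_rot _ φ, Real.cos_pi_div_two, mul_zero, Complex.mul_re, cis_re, cis_im, Real.cos_neg,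
      Real.sin_neg, show π / 2 / 2 = π / 4 by ring, Real.cos_pi_div_four, Real.sin_pi_div_four]
    have := mul_pos s2_pos h1
    simp only [zc]
    linarith)
  exact ⟨i, by push_cast at hi; omega⟩

theorem w0 (h : Ang l n) {m : E4} (hm : m ∈ Tet (aL l) √2) {k : ℤ} {θ : ℝ}
    (h1 : √2 * |rot θ (k * l) m 3| < aL l * rot θ (k * l) m 2) : ∃ i : ℤ, k = 2 * n * i :=
  sec0 h (tet_wc h hm) (by rw [← wc_rot θ]; exact (aL_lt h).1 h1)

theorem w01 (h : Ang l n) {m : E4} (hm : m ∈ Tet (aL l) √2) {k : ℤ} {θ : ℝ}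
    (h1 : rot θ (k * l) m ∈ Wn l) : ∃ i : ℤ, k = 2 * n * i ∨ k = 2 * n * i + 1 := by
  refine sec01 h (tet_wc h hm) ?_
  have := h1
  rwa [Wn, mem_ofPred_eq, wc_rot, norm_mul, DHom.norm_cis, one_mul] at this

theorem rot_red (h : Ang l n) (j k i i' : ℤ) (m : E4) :
    rot ((4 * i + j : ℤ) * (π / 2)) ((2 * n * i' + k : ℤ) * l) m
      = rot (j * (π / 2)) (k * l) m := by
  rw [← rot_per (j * (π / 2)) (k * l) i i']
  congr 2
  · push_cast; ring
  · push_cast; linear_combination (2 * (i' : ℝ)) * h.eq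

theorem isOpen_Wn (l : ℝ) : IsOpen (Wn l) := by
  have : Continuous wc := by
    have e : wc = fun x : E4 => (x 2 : ℂ) + x 3 * Complex.I :=
      funext fun x => Complex.ext (by simp [wc]) (by simp [wc])
    rw [e]
    fun_prop
  exact isOpen_lt (by fun_prop) (by fun_prop)

theorem mem_Wn (h : Ang l n) {α β t : ℝ} (hα : 0 < α) : α • vP (l / 2) + β • vQ t ∈ Wn l := by
  have e : wc (α • vP (l / 2) + β • vQ t) = α * cis (l / 2) :=
    Complex.ext (by simp [wc, vP, vQ, cis_re]) (by simp [wc, vP, vQ, cis_im])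
  rw [Wn, mem_ofPred_eq, e, mul_left_comm, mul_comm (cis _), DHom.cis_neg, norm_mul, DHom.norm_cis]
  have : Real.cos l < 1 := by
    rw [← Real.cos_zero]
    exact Real.cos_lt_cos_of_nonneg_of_le_pi le_rfl h.mem.2.le h.pos
  simpa [abs_of_pos hα, hα] using this

/-! ### Normal forms -/

/-- inside the open tetrahedron -/
theorem nf_int (h : Ang l n) {x : E4} (hx : x ∈ Xi l) (h1 : x ∈ TetO (aL l) √2) : x ∈ opn l := by
  obtain ⟨j, k, -, m, hm, rfl⟩ := hx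
  obtain ⟨i, rfl⟩ := z0 (M_tet h hm) (lt_of_mul_lt_mul_left h1.2.2 s2_pos.le)
  obtain ⟨i', rfl⟩ := w0 h (M_tet h hm) h1.2.1
  have e := rot_red h 0 0 i i' m
  simp only [add_zero, Int.cast_zero, zero_mul, rot_zero] at e
  rw [e] at h1 ⊢
  exact (M_cases h hm).resolve_right fun k => h1.2.1.ne k.2.1

/-- near the circle through the vertices `vQ`, on the side of `vQ (π / 4)` -/
theorem nf_z (h : Ang l n) {x : E4} (hx : x ∈ Xi l) (h1 : 0 < x 0 + x 1) : ∃ k : ℤ,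
    ∃ m ∈ leafSet l, (Even k ∧ x = rot 0 (k * l) m) ∨
      (Odd k ∧ x = rot (π / 2) (k * l) (rf1 m)) := by
  obtain ⟨j, k, e, m, hm, rfl⟩ := hx
  obtain ⟨i, rfl | rfl⟩ := z01 (M_tet h hm) h1
  · have e1 := rot_red h 0 k i 0 m
    simp only [add_zero, Int.cast_zero, zero_mul, mul_zero, zero_add] at e1
    refine ⟨k, m, hm, Or.inl ⟨?_, e1⟩⟩
    obtain ⟨r, hr⟩ := e
    exact ⟨r - 2 * i, by omega⟩
  · have e1 := rot_red h 1 k i 0 m
    simp only [Int.cast_one, one_mul, mul_zero, zero_add] at e1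
    refine ⟨k, _, rf1_M h hm, Or.inr ⟨?_, by rw [rf1_rf1]; exact e1⟩⟩
    obtain ⟨r, hr⟩ := e
    exact ⟨r - 2 * i - 1, by omega⟩

theorem even_rot {j : ℤ} (hj : Even j) {m : E4} (hm : m ∈ leafSet l) :
    rot (j * (π / 2)) 0 m ∈ leafSet l ∨ rot π 0 (rot (j * (π / 2)) 0 m) ∈ leafSet l := by
  obtain ⟨r, rfl⟩ := hj
  obtain ⟨i, rfl | rfl⟩ := Int.even_or_odd' r
  · left
    have := rot_per 0 0 i 0 m
    rw [rot_zero] at this
    rw [← this] at hm
    convert hm using 3 <;> push_cast <;> ring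
  · right
    have := rot_per 0 0 (i + 1) 0 m
    rw [rot_zero] at this
    rw [← this] at hm
    rw [rot_rot]
    convert hm using 3 <;> push_cast <;> ring

/-- near the vertex `vP (l / 2)` -/
theorem nf_w (h : Ang l n) {x : E4} (hx : x ∈ Xi l) (h1 : x ∈ Wn l) :
    (x ∈ leafSet l ∨ rot π 0 x ∈ leafSet l) ∨ (gR (l / 2) (π / 4) x ∈ leafSet l ∨
      rot π 0 (gR (l / 2) (π / 4) x) ∈ leafSet l) := by
  obtain ⟨j, k, e, m, hm, rfl⟩ := hx
  obtain ⟨r, hr⟩ := e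
  obtain ⟨i, rfl | rfl⟩ := w01 h (M_tet h hm) h1
  · have e1 := rot_red h j 0 0 i m
    simp only [add_zero, Int.cast_zero, zero_mul, mul_zero, zero_add] at e1
    rw [e1]
    exact Or.inl (even_rot ⟨r - n * i, by linarith⟩ hm)
  · have e1 := rot_red h j 1 0 i m
    simp only [Int.cast_one, one_mul, mul_zero, zero_add] at e1
    rw [e1, gR_rot]
    have := even_rot (j := 1 - j) ⟨1 - r + n * i, by linarith⟩ (cj_M h hm)
    rw [show 2 * (π / 4) - j * (π / 2) = ((1 - j : ℤ) : ℝ) * (π / 2) by push_cast; ring,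
      show 2 * (l / 2) - l = 0 by ring]
    exact Or.inr this

/-- near the edge from `vP (l / 2)` to `vQ (π / 4)` -/
theorem nf_zw (h : Ang l n) {x : E4} (hx : x ∈ Xi l) (h0 : 0 < x 0 + x 1) (h1 : x ∈ Wn l) :
    x ∈ leafSet l ∨ gR (l / 2) (π / 4) x ∈ leafSet l := by
  obtain ⟨k, m, hm, ⟨⟨r, hr⟩, rfl⟩ | ⟨⟨r, hr⟩, rfl⟩⟩ := nf_z h hx h0
  · obtain ⟨i, e | e⟩ := w01 h (M_tet h hm) h1
    · have e1 := rot_red h 0 0 0 i m
      simp only [add_zero, Int.cast_zero, zero_mul, mul_zero, rot_zero] at e1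
      rw [e, e1]
      exact Or.inl hm
    · rw [mul_assoc] at e
      omega
  · obtain ⟨i, e | e⟩ := w01 h (M_tet h (rf1_M h hm)) h1
    · rw [mul_assoc] at e
      omega
    · have e1 := rot_red h 1 1 0 i (rf1 m)
      simp only [Int.cast_one, one_mul, mul_zero, zero_add] at e1
      rw [e, e1, gR_rot, show 2 * (π / 4) - π / 2 = 0 by ring, show 2 * (l / 2) - l = 0 by ring,
        rot_zero]
      exact Or.inr (cj_M h (rf1_M h hm))

/-! ### Good points -/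

theorem good_of {p : E4} {S' : Set E4} (h1 : IsMin S') (h2 : p ∈ S') (h3 : S' ⊆ Xi l)
    (h4 : ∀ᶠ x in 𝓝 p, x ∈ Xi l → x ∈ S') : Good l p :=
  ⟨S', h1, h2, nhdsWithin_eq_iff_eventuallyEq.2
    (h4.mono fun _ hx => propext ⟨fun k => h3 k, hx⟩)⟩

theorem Good.map {p : E4} (hp : Good l p) (g : Iso) (h1 : ∀ x ∈ Xi l, g x ∈ Xi l)
    (h2 : ∀ x ∈ Xi l, g.symm x ∈ Xi l) : Good l (g p) := by
  obtain ⟨S', a, b, c⟩ := hp
  refine ⟨g '' S', invS_all.min g S' a, mem_image_of_mem g b, ?_⟩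
  have e : g '' Xi l = Xi l := Subset.antisymm (by rintro _ ⟨x, hx, rfl⟩; exact h1 x hx)
    fun x hx => ⟨_, h2 x hx, g.apply_symm_apply x⟩
  have k := fun S : Set E4 => g.toHomeomorph.isEmbedding.map_nhdsWithin_eq S p
  change 𝓝[g.toHomeomorph '' S'] (g.toHomeomorph p) = _
  rw [← k, c, k]
  exact congrArg (fun S => 𝓝[S] (g p)) e

end Pool.Agent.Lib.MP_16d934_gt.X
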