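import Pool.Agent.Lib.MP_16d934_gt.Bridge

/-! The exact first Betti number of a star-shaped symmetric surface. -/

set_option autoImplicit false

open Set Metric Filter Topology Pool.Agent.Shared.SingHom
open scoped InnerProductSpace NNReal Real

noncomputable section

namespace Pool.Agent.Lib.MP_16d934_gt.X

open DHom

section mv
variable {Y : Type} [TopologicalSpace Y]

/-- the chain of a point -/
def ptc (y : Y) : Ch Y := Finsupp.single ⟨1, ContinuousMap.const _ y⟩ 1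

theorem ptc_Z {A : Set Y} {p q : Y} (hp : p ∈ A) (hq : q ∈ A) : ptc p - ptc q ∈ Z A 1 := by
  refine mem_Z.2 ⟨Submodule.sub_mem _ (single_mem_C (fun _ => hp) _)
    (single_mem_C (fun _ => hq) _), ?_⟩
  rw [map_sub, ptc, ptc, bd_succ, bd_succ, sub_eq_zero]
  refine Finset.sum_congr rfl fun i _ => ?_
  congr 3
  ext t
  exact isEmptyElim t

open Classical in
/-- evaluation of a function on chains -/
def evc (χ : Y → ℤ) : Ch Y →ₗ[ℤ] ℤ := Finsupp.linearCombination ℤ fun s : Sx Y =>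
  if h : Nonempty (Dl s.1) then χ (s.2 h.some) else 0

theorem ne_Dl : Nonempty (Dl 1) := ⟨⟨fun _ => 1, by simp [stdSimplex]⟩⟩

theorem evc_one (χ : Y → ℤ) (σ : C(Dl 1, Y)) :
    evc χ (Finsupp.single ⟨1, σ⟩ 1) = χ (σ ne_Dl.some) := by
  simp only [evc, Finsupp.linearCombination_single, one_smul]
  exact dif_pos ne_Dl

theorem evc_B {N : Set Y} {χ : Y → ℤ} (hχ : ContinuousOn χ N) {x : Ch Y} (hx : x ∈ B N 1) :
    evc χ x = 0 := by
  obtain ⟨y, hy, rfl⟩ := mem_B.1 hx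
  refine eq_on_C ((evc χ).comp bd) 0 (fun σ hσ => ?_) hy
  have : PreconnectedSpace (Dl 2) :=
    isPreconnected_iff_preconnectedSpace.1 (convex_stdSimplex ℝ (Fin 2)).isPreconnected
  have c : Continuous fun t => χ (σ t) := hχ.comp_continuous σ.continuous hσ
  rw [LinearMap.comp_apply, bd_succ, Fin.sum_univ_two, map_add, map_smul, map_smul, evc_one,
    evc_one]
  have := PreconnectedSpace.constant this c (x := face 1 0 ne_Dl.some) (y := face 1 1 ne_Dl.some)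
  simp [this]

/-- Mayer-Vietoris lower bound: pairs of points that are joined in both pieces and are separated
by locally constant functions on the intersection -/
theorem mv_surj {A U₁ U₂ N D₁ D₂ : Set Y} (h : Exc A U₁ U₂ N)
    (s₁ : D₁ ⊆ U₁) (s₂ : D₂ ⊆ U₂) (a₁ : Acyc D₁) (a₂ : Acyc D₂) {k : ℕ}
    (p q : Fin k → Y) (hp : ∀ i, p i ∈ N ∩ D₁ ∩ D₂) (hq : ∀ i, q i ∈ N ∩ D₁ ∩ D₂)
    (χ : Fin k → Y → ℤ) (hχ : ∀ j, ContinuousOn (χ j) N)
    (hδ : ∀ i j, χ j (p i) - χ j (q i) = if i = j then 1 else 0) :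
    ∃ Θ : H A 2 →ₗ[ℤ] (Fin k → ℤ), Function.Surjective Θ := by
  obtain ⟨δ, -, e2⟩ := h.mv 1
  let E : H N 1 →ₗ[ℤ] (Fin k → ℤ) := LinearMap.pi fun j =>
    Hq.lift ((evc (χ j)).comp (Z N 1).subtype) fun x hx => evc_B (hχ j) hx
  have key : ∀ i, ∃ a, E (δ a) = fun j => if i = j then 1 else 0 := fun i => by
    obtain ⟨a, ha⟩ := (e2 (cls _ (ptc_Z (hp i).1.1 (hq i).1.1))).1 (Prod.ext
      (Hq.mk_eq_zero.2 (B_mono s₁ _ (a₁ 1 (ptc_Z (hp i).1.2 (hq i).1.2))))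
      (Hq.mk_eq_zero.2 (B_mono s₂ _ (a₂ 1 (ptc_Z (hp i).2 (hq i).2)))))
    refine ⟨a, funext fun j => ?_⟩
    rw [ha, ← hδ]
    change evc (χ j) (ptc (p i) - ptc (q i)) = _
    rw [map_sub, ptc, ptc, evc_one, evc_one]
    rfl
  choose a ha using key
  refine ⟨E.comp δ, fun v => ⟨∑ i, v i • a i, ?_⟩⟩
  rw [map_sum]
  ext j
  simp [ha]

end mv

theorem cont_step (m : ℝ) : ContinuousOn (fun t : ℝ => if m < t then (1 : ℤ) else 0) {m}ᶜ := by
  intro t ht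
  refine ContinuousAt.continuousWithinAt ?_
  rcases lt_or_gt_of_ne (show t ≠ m from ht) with k | k
  · refine (continuousAt_const (y := (0 : ℤ))).congr ?_
    filter_upwards [Iio_mem_nhds k] with s hs
    rw [if_neg (not_lt.2 (le_of_lt hs))]
  · refine (continuousAt_const (y := (1 : ℤ))).congr ?_
    filter_upwards [Ioi_mem_nhds k] with s hs
    rw [if_pos (show m < s from hs)]

variable {S : Set E4} {Φ : ℂ → E4} {n : ℕ} {t : ℤ → ℝ}

theorem acyc_Dq (h : Star S Φ n t) : Acyc (Dq S) := by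
  let g : C(closedBall (0 : ℂ) 1, E4) := ⟨(closedBall 0 1).domRestrict Φ, h.cont.domRestrict⟩
  have hg : IsEmbedding g := (g.continuous.isClosedEmbedding h.inj.injective).isEmbedding
  let ι : C(closedBall (0 : ℂ) 1, ℂ) := ⟨Subtype.val, continuous_subtype_val⟩
  have h1 : Acyc (ι '' univ) := by
    rw [show ι '' univ = closedBall 0 1 by rw [image_univ]; exact Subtype.range_coe]
    exact acyc_of_starConvex (mem_closedBall_self zero_le_one)
      ((convex_closedBall 0 1).starConvex (mem_closedBall_self zero_le_one))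
  have h2 := (acyc_image_iff g hg).2 ((acyc_image_iff ι IsEmbedding.subtypeVal).1 h1)
  rwa [image_univ, show range g = Φ '' closedBall 0 1 from range_domRestrict _ _, h.img] at h2

theorem half_surj (h : Star S Φ n t) (hr : ∀ x ∈ S, rf0 x ∈ S ∧ rf1 x ∈ S) {i₀ i₁ : Fin 4}
    (hi : (i₀ = 0 ∧ i₁ = 1) ∨ (i₀ = 1 ∧ i₁ = 0)) (r : Iso) (rS : ∀ x ∈ S, r x ∈ S)
    (r0 : ∀ x, r x i₀ = x i₀) (r1 : ∀ x, r x i₁ = -x i₁) (rf : ∀ x : E4, x i₁ = 0 → r x = x)
    {s : ℤ → ℝ} (mono : StrictMono s) (per : ∀ i, s (i + 2 * n) = s i + 2 * π)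
    (ev : ∀ i : ℤ, Φ (cis (s (2 * i))) i₁ = 0)
    (od : ∀ i : ℤ, ∀ φ ∈ Icc (s (2 * i + 1)) (s (2 * i + 2)), Φ (cis φ) i₀ = 0)
    (cor : ∀ φ, Φ (cis φ) i₀ = 0 → Φ (cis φ) i₁ = 0 → ∃ i, φ = s i) :
    ∃ Θ : H {x | x ∈ S ∧ 0 ≤ x i₀} 2 →ₗ[ℤ] (Fin (n - 1) → ℤ), Function.Surjective Θ := by
  have T0 : T i₀ := by rcases hi with ⟨rfl, -⟩ | ⟨rfl, -⟩ <;> simp [T]
  have T1 : T i₁ := by rcases hi with ⟨-, rfl⟩ | ⟨-, rfl⟩ <;> simp [T]
  have hD : ∀ x ∈ Dq S, x ∈ S ∧ 0 ≤ x i₀ ∧ 0 ≤ x i₁ := fun x hx => by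
    rcases hi with ⟨rfl, rfl⟩ | ⟨rfl, rfl⟩
    exacts [hx, ⟨hx.1, hx.2.2, hx.2.1⟩]
  set m : ℤ → ℝ := fun j => (s (2 * j - 1) + s (2 * j)) / 2 with hm
  have m1 : ∀ j, s (2 * j - 1) < m j ∧ m j < s (2 * j) := fun j => by
    have := mono (show 2 * j - 1 < 2 * j by omega)
    simp only [hm]
    constructor <;> linarith
  have m2 : ∀ j i, m j < s (2 * i) ↔ j ≤ i := fun j i =>
    ⟨fun k => by have := mono.lt_iff_lt.1 ((m1 j).1.trans k); omega,
      fun k => (m1 j).2.trans_le (mono.monotone (by omega))⟩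
  set c := m 0 + π with hc
  set F : Set ℝ := range fun j : Fin (n - 1) => m (j + 1)
  set W : Set ℂ := {z | 0 < (ω c z).re} ∩ (fun z => (Cc c z).1) ⁻¹' Fᶜ
  have hW : IsOpen W := by
    refine ContinuousOn.isOpen_inter_preimage (fun z hz => ?_)
      (isOpen_lt continuous_const (Complex.continuous_re.comp (cont_ω _)))
      (finite_range _).isClosed.isOpen_compl
    exact (continuousAt_const.add (continuousAt_const.mul ((Complex.continuousAt_arg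
      (Or.inl hz)).comp (cont_ω _).continuousAt))).continuousWithinAt
  have zero : ∀ x ∈ S, x i₁ = 0 → pr Φ x ∈ W := fun x hx x1 => by
    obtain ⟨a, b⟩ := pr_spec h hr hx
    have f1 : Φ (pr Φ x) i₁ = 0 := by rw [b, fold_T T1, x1, abs_zero]
    have f2 : Φ (pr Φ x) ∈ Dq S := h.img ▸ mem_image_of_mem _ (mem_closedBall_zero_iff.2 a)
    have f3 : ‖pr Φ x‖ = 1 := (h.bd _ (mem_closedBall_zero_iff.2 a)).2 ⟨f2.1, f2.2.1, f2.2.2, by
      rcases hi with ⟨-, rfl⟩ | ⟨-, rfl⟩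
      exacts [Or.inr f1, Or.inl f1]⟩
    have ne : ∀ j, pr Φ x ≠ cis (m j) := fun j e => by
      rw [e] at f1
      obtain ⟨i, hi⟩ := cor _ (od (j - 1) _ ⟨by
        rw [show 2 * (j - 1) + 1 = 2 * j - 1 by ring]; exact (m1 j).1.le, by
        rw [show 2 * (j - 1) + 2 = 2 * j by ring]; exact (m1 j).2.le⟩) f1
      have k1 := mono.lt_iff_lt.1 (hi ▸ (m1 j).1)
      have k2 := mono.lt_iff_lt.1 (hi ▸ (m1 j).2)
      omega
    have w0 : ω c (pr Φ x) ≠ 0 := fun e => ne 0 (by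
      have h1 := cis_neg c
      have h2 : cis c = -cis (m 0) := by rw [hc, cis_add]; simp [cis]
      rw [ω] at e
      linear_combination cis c * e - pr Φ x * h1 - h2)
    refine ⟨re_pos a w0, ?_⟩
    rintro ⟨j, hj⟩
    have k := Cc_mem a w0
    have k2 : (Cc c (pr Φ x)).2 = 0 := k.2.1.eq_or_lt.elim Eq.symm fun k0 =>
      (norm_κ_ne k k0 (by rw [κ_Cc a w0, f3])).elim
    refine ne (j + 1) ?_
    rw [← κ_Cc a w0, show Cc c (pr Φ x) = (m (j + 1), 0) from Prod.ext hj.symm k2, κ_zero]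
  set A : Set E4 := {x | x ∈ S ∧ 0 ≤ x i₀}
  have cφ : ContinuousOn (fun x : E4 => (x i₁, pr Φ x)) A :=
    (show Continuous fun x : E4 => x i₁ by fun_prop).continuousOn.prodMk
      ((cont_pr h hr).mono fun x hx => hx.1)
  have hE := exc_rel (A₁ := {x | x ∈ A ∧ (0 < x i₁ ∨ pr Φ x ∈ W)})
    (A₂ := {x | x ∈ A ∧ (x i₁ < 0 ∨ pr Φ x ∈ W)}) (A₀ := {x | x ∈ A ∧ pr Φ x ∈ W}) cφ
    ((isOpen_lt continuous_const continuous_fst).union (hW.preimage continuous_snd))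
    ((isOpen_lt continuous_fst continuous_const).union (hW.preimage continuous_snd))
    (fun x hx => by
      rcases lt_trichotomy (x i₁) 0 with k | k | k
      exacts [Or.inr (Or.inl k), Or.inl (Or.inr (zero x hx.1 k)), Or.inl (Or.inl k)])
    (fun _ => Iff.rfl) (fun _ => Iff.rfl) fun x =>
      ⟨fun k => ⟨⟨k.1, Or.inr k.2⟩, k.1, Or.inr k.2⟩, fun k => ⟨k.1.1,
        k.1.2.elim (fun a => k.2.2.resolve_left a.not_gt) id⟩⟩
  set P : ℤ → E4 := fun i => Φ (cis (s (2 * i))) with hP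
  have cb : ∀ φ, cis φ ∈ closedBall (0 : ℂ) 1 := fun φ =>
    mem_closedBall_zero_iff.2 (norm_cis φ).le
  have PD : ∀ i, P i ∈ Dq S := fun i => h.img ▸ mem_image_of_mem _ (cb _)
  have PN : ∀ i, P i ∈ {x | x ∈ A ∧ pr Φ x ∈ W} ∩ Dq S ∩ r '' Dq S := fun i =>
    ⟨⟨⟨⟨(PD i).1, (hD _ (PD i)).2.1⟩, zero _ (PD i).1 (ev i)⟩, PD i⟩, _, PD i, rf _ (ev i)⟩
  have Pα : ∀ i : ℤ, 0 ≤ i → i < n → (Cc c (pr Φ (P i))).1 = s (2 * i) := fun i i0 i1 => by
    obtain ⟨a, b⟩ := pr_spec h hr (PD i).1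
    rw [fold_self fun j hj => by rcases hj with rfl | rfl; exacts [(PD i).2.1, (PD i).2.2]] at b
    have e : m n = m 0 + 2 * π := by
      have a1 := per (2 * 0 - 1)
      have a2 := per (2 * 0)
      rw [show 2 * 0 - 1 + 2 * (n : ℤ) = 2 * n - 1 by ring] at a1
      rw [show 2 * 0 + 2 * (n : ℤ) = 2 * n by ring] at a2
      simp only [hm]
      linear_combination (a1 + a2) / 2
    have k1 := (m2 0 i).2 i0
    have k2 : s (2 * i) < m n := (mono.monotone (by omega)).trans_lt (m1 n).1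
    rw [h.inj (mem_closedBall_zero_iff.2 a) (cb _) b, ← κ_zero c,
      (Cc_κ (q := (s (2 * i), 0)) ⟨⟨by linarith, by linarith⟩, by simp⟩).2]
  refine mv_surj hE (D₁ := Dq S) (D₂ := r '' Dq S) (fun x hx => ?_) ?_ (acyc_Dq h)
    ((acyc_image_iff ⟨r, r.continuous⟩ r.toHomeomorph.isEmbedding).2 (acyc_Dq h))
    (fun i => P (i + 1)) (fun i => P i) (fun i => PN _) (fun i => PN _)
    (fun j x => if m (j + 1) < (Cc c (pr Φ x)).1 then 1 else 0) (fun j => ?_) fun i j => ?_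
  · obtain ⟨a, b, d⟩ := hD x hx
    exact ⟨⟨a, b⟩, d.eq_or_lt.symm.imp id fun e => zero x a e.symm⟩
  · rintro _ ⟨x, hx, rfl⟩
    obtain ⟨a, b, d⟩ := hD x hx
    refine ⟨⟨rS x a, by rwa [r0]⟩, d.eq_or_lt.symm.imp (fun e => by rw [r1]; linarith) fun e =>
      zero _ (rS x a) (by rw [r1, ← e, neg_zero])⟩
  · refine (cont_step (m (j + 1))).comp (f := fun x => (Cc c (pr Φ x)).1)
      (((cont_Cc c).comp ((cont_pr h hr).mono fun x hx => hx.1.1) fun x hx =>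
        ⟨(pr_spec h hr hx.1.1).1, fun e => by simpa [e] using hx.2.1⟩).fst)
      fun x hx e => hx.2.2 ⟨j, e.symm⟩
  · have hi := i.2
    simp only [Pα _ (by omega : (0 : ℤ) ≤ i + 1) (by omega), Pα _ (by omega : (0 : ℤ) ≤ i) (by omega),
      m2, Fin.ext_iff]
    split_ifs <;> omega

/-- folding of one coordinate -/
def fo (i : Fin 4) : C(E4, E4) :=
  ⟨fun x => WithLp.toLp 2 fun j => if j = i then |x j| else x j, by
    refine (PiLp.continuous_toLp 2 _).comp (continuous_pi fun j => ?_)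
    split_ifs <;> fun_prop⟩

theorem fo_apply (i j : Fin 4) (x : E4) : fo i x j = if j = i then |x j| else x j := rfl

theorem fo_self {i : Fin 4} {x : E4} (hx : 0 ≤ x i) : fo i x = x := by
  ext j
  rw [fo_apply]
  split_ifs with e
  · rw [e, abs_of_nonneg hx]
  · rfl

theorem betti_star (h : Star S Φ n t) (hr : ∀ x ∈ S, rf0 x ∈ S ∧ rf1 x ∈ S) (hn : 2 ≤ n) :
    betti1 S + 2 = 2 * n := by
  have c0 : ∀ x : E4, rf0 x 0 = -x 0 ∧ rf0 x 1 = x 1 ∧ rf0 x 2 = x 2 ∧ rf0 x 3 = x 3 :=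
    fun x => by simp [rf0, mkO_apply]
  have c1 : ∀ x : E4, rf1 x 0 = x 0 ∧ rf1 x 1 = -x 1 ∧ rf1 x 2 = x 2 ∧ rf1 x 3 = x 3 :=
    fun x => by simp [rf1, mkO_apply]
  obtain ⟨Θ₀, s₀⟩ := half_surj h hr (Or.inl ⟨rfl, rfl⟩) rf1 (fun x hx => (hr x hx).2)
    (fun x => (c1 x).1) (fun x => (c1 x).2.1)
    (fun x e => by ext j; fin_cases j <;> simp [c1, e]) h.mono h.per
    (fun i => h.ev i _ ⟨le_rfl, h.mono.monotone (by omega)⟩) h.od h.cor
  obtain ⟨Θ₁, s₁⟩ := half_surj h hr (Or.inr ⟨rfl, rfl⟩) rf0 (fun x hx => (hr x hx).1)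
    (fun x => (c0 x).2.1) (fun x => (c0 x).1)
    (fun x e => by ext j; fin_cases j <;> simp [c0, e]) (s := fun i => t (i + 1))
    (fun a b e => h.mono (by omega)) (fun i => by rw [add_right_comm, h.per])
    (fun i => h.od i _ ⟨le_rfl, h.mono.monotone (by omega)⟩)
    (fun i φ hφ => h.ev (i + 1) φ (by
      rwa [show 2 * (i + 1) = 2 * i + 1 + 1 by ring, show 2 * i + 1 + 1 + 1 = 2 * i + 2 + 1 by ring]))
    (fun φ a b => by
      obtain ⟨i, hi⟩ := h.cor φ b a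
      exact ⟨i - 1, by rwa [sub_add_cancel]⟩)
  have f0 : ∀ x ∈ S, fo 0 x ∈ S := fun x hx => by
    rcases le_total 0 (x 0) with k | k
    · rwa [fo_self k]
    · convert (hr x hx).1 using 1
      ext j
      fin_cases j <;> simp [fo_apply, c0, abs_of_nonpos k]
  have f1 : ∀ x ∈ S, fo 1 x ∈ S := fun x hx => by
    rcases le_total 0 (x 1) with k | k
    · rwa [fo_self k]
    · convert (hr x hx).2 using 1
      ext j
      fin_cases j <;> simp [fo_apply, c1, abs_of_nonpos k]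
  have g0 : MapsTo (fo 0) S {x | x ∈ S ∧ 0 ≤ x 0} := fun x hx => ⟨f0 x hx, by simp [fo_apply]⟩
  have g1 : MapsTo (fo 1) S {x | x ∈ S ∧ 0 ≤ x 1} := fun x hx => ⟨f1 x hx, by simp [fo_apply]⟩
  have i0 : {x | x ∈ S ∧ 0 ≤ x 0} ⊆ S := fun x hx => hx.1
  have i1 : {x | x ∈ S ∧ 0 ≤ x 1} ⊆ S := fun x hx => hx.1
  have hz := fun c => Z_le_B_iff.1 (acyc_Dq h 2) c
  have hs : Function.Surjective ((Θ₀.comp (Hmap (fo 0) g0 2)).prod
      (Θ₁.comp (Hmap (fo 1) g1 2))) := by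
    rintro ⟨v₀, v₁⟩
    obtain ⟨a₀, rfl⟩ := s₀ v₀
    obtain ⟨a₁, rfl⟩ := s₁ v₁
    have e00 : Hmap (fo 0) g0 2 (Hinc i0 2 a₀) = a₀ := by
      rw [Hmap_Hinc, Hmap_eq_Hinc _ Subset.rfl fun z hz => fo_self hz.2, Hinc_self]
    have e11 : Hmap (fo 1) g1 2 (Hinc i1 2 a₁) = a₁ := by
      rw [Hmap_Hinc, Hmap_eq_Hinc _ Subset.rfl fun z hz => fo_self hz.2, Hinc_self]
    have e01 : Hmap (fo 0) g0 2 (Hinc i1 2 a₁) = 0 := by
      have k : MapsTo (fo 0) {x | x ∈ S ∧ 0 ≤ x 1} (Dq S) := fun x hx =>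
        ⟨f0 x hx.1, by simp [fo_apply], by simpa [fo_apply] using hx.2⟩
      have k' : Dq S ⊆ {x | x ∈ S ∧ 0 ≤ x 0} := fun x hx => ⟨hx.1, hx.2.1⟩
      rw [Hmap_Hinc, ← Hinc_Hmap (fo 0) k k', hz (Hmap _ _ _ _), map_zero]
    have e10 : Hmap (fo 1) g1 2 (Hinc i0 2 a₀) = 0 := by
      have k : MapsTo (fo 1) {x | x ∈ S ∧ 0 ≤ x 0} (Dq S) := fun x hx =>
        ⟨f1 x hx.1, by simpa [fo_apply] using hx.2, by simp [fo_apply]⟩
      have k' : Dq S ⊆ {x | x ∈ S ∧ 0 ≤ x 1} := fun x hx => ⟨hx.1, hx.2.2⟩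
      rw [Hmap_Hinc, ← Hinc_Hmap (fo 1) k k', hz (Hmap _ _ _ _), map_zero]
    exact ⟨Hinc i0 2 a₀ + Hinc i1 2 a₁, by simp [e00, e11, e01, e10]⟩
  refine (homS_all.star S Φ n t h hr).resolve_right fun e => ?_
  rw [betti_eq] at e
  have fin : Module.rank ℤ (H S 2) < Cardinal.aleph0 := not_le.1 fun k => by
    rw [Module.finrank, Cardinal.toNat_apply_of_aleph0_le k] at e
    omega
  have := Cardinal.toNat_le_toNat (LinearMap.rank_le_of_surjective _ hs) fin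
  change Module.finrank ℤ _ ≤ Module.finrank ℤ _ at this
  rw [Module.finrank_prod, Module.finrank_fin_fun] at this
  omega

end Pool.Agent.Lib.MP_16d934_gt.X
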