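import Pool.Agent.Lib.MP_16d934_gt.X.Base

/-! The surface is smooth across the edges and at the vertices with a right angle. -/

set_option autoImplicit false

open Set Metric Filter Topology
open scoped InnerProductSpace NNReal Real

noncomputable section

namespace Pool.Agent.Lib.MP_16d934_gt.X

open ELaw EBar

variable {l : ℝ} {n : ℕ}

/-- points near the base point of a gnomonic chart -/
theorem near_chart (O : Iso) (y₀ : P2) (z₀ : ℝ) {U : Set P2} (hU : U ∈ 𝓝 y₀) :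
    ∀ᶠ x in 𝓝 (O (gn y₀ z₀)), ‖x‖ = 1 → ∃ y ∈ U, ∃ z, x = O (gn y z) := by
  have h0 : 0 < O.symm (O (gn y₀ z₀)) 0 := by
    rw [O.symm_apply_apply]
    exact gn_pos y₀ z₀
  have c0 : ∀ i, ContinuousAt (fun x : E4 => O.symm x i) (O (gn y₀ z₀)) := fun i => by fun_prop
  have c1 : ContinuousAt (fun x : E4 => yc (O.symm x)) (O (gn y₀ z₀)) :=
    ((c0 1).div (c0 0) h0.ne').prodMk ((c0 2).div (c0 0) h0.ne')
  have c2 : ∀ᶠ x in 𝓝 (O (gn y₀ z₀)), yc (O.symm x) ∈ U :=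
    c1.eventually_mem (by rwa [O.symm_apply_apply, yc_gn])
  filter_upwards [c2, continuousAt_const.eventually_lt (c0 0) h0] with x k1 k2 k3
  exact ⟨_, k1, zq (O.symm x), by
    rw [gn_coord (by rwa [LinearIsometryEquiv.norm_map]) k2, O.apply_symm_apply]⟩

theorem opn_sign {y : P2} {z : ℝ} : (0 < O0 (gn y z) 1 → 0 < y.2) ∧
    (0 < O0 (gn y z) 3 → 0 < y.1) := by
  obtain ⟨-, a1, -, a3⟩ := tetS_all.coord y z
  have := EWedge.rho_pos y z
  rw [a1, a3]
  exact ⟨fun k => (div_pos_iff_of_pos_right this).1 k, fun k => (div_pos_iff_of_pos_right this).1 k⟩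

theorem quad_top (h : Ang l n) {x : E4} (hx : x ∈ Quad (aL l) √2) (h3 : 0 < x 3) :
    ∃ t α β : ℝ, (t = π / 4 ∨ t = -(π / 4)) ∧ x = α • vP (l / 2) + β • vQ t := by
  obtain ⟨s, t, α, β, rfl | rfl, ht, i1, -, -, rfl⟩ := quad_cases tetS_all h.mem hx
  · exact ⟨t, α, β, ht, rfl⟩
  · have := mul_nonneg i1 (trig h.mem).1.le
    simp [vP, vQ] at h3
    linarith

theorem quad_side (h : Ang l n) {x : E4} (hx : x ∈ Quad (aL l) √2) (h1 : 0 < x 1) :
    ∃ s α β : ℝ, (s = l / 2 ∨ s = -(l / 2)) ∧ 0 ≤ α ∧ x = α • vP s + β • vQ (π / 4) := by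
  obtain ⟨s, t, α, β, hs, rfl | rfl, i1, i2, -, rfl⟩ := quad_cases tetS_all h.mem hx
  · exact ⟨s, α, β, hs, i1, rfl⟩
  · have := mul_nonneg i2 s2_pos.le
    simp [vP, vQ] at h1
    linarith

theorem gR_fix (s t α β : ℝ) : gR s t (α • vP s + β • vQ t) = α • vP s + β • vQ t := by
  rw [map_add, map_smul, map_smul, gR_vP, gR_vQ, show 2 * s - s = s by ring]

theorem OQ_eq (A B : ℝ) (w : E4) : OQ A B w = rot B A !₂[w 0, w 3, w 1, w 2] :=
  ext4 (by simp [OQ, mkO_apply, rot0]; ring) (by simp [OQ, mkO_apply, rot1]; ring)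
    (by simp [OQ, mkO_apply, rot2]; ring) (by simp [OQ, mkO_apply, rot3]; ring)

theorem gR_OG (A B : ℝ) (y : P2) (z : ℝ) :
    gR A B (OG A B (gn y z)) = OG A B (gn (y.1, -y.2) (-z)) := by
  change gR A B (OQ A B (dg _)) = OQ A B (dg _)
  rw [OQ_eq, OQ_eq, gR_rot, show 2 * B - B = B by ring, show 2 * A - A = A by ring]
  congr 1
  refine ext4 ?_ ?_ ?_ ?_ <;> simp [cj_def, rf1_c, rf3_c, dg, mkO_apply, gn] <;> ring

theorem edge_pt (A B s : ℝ) :
    OG A B (gn (s, 0) 0) = (s * EPsi.ff s) • vP A + EPsi.ff s • vQ B := by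
  obtain ⟨a0, a1, a2, a3⟩ := EPsi.edge_X A B s
  refine ext4 ?_ ?_ ?_ ?_ <;> simp [a0, a1, a2, a3, vP, vQ] <;> ring

theorem ff_sq (s : ℝ) : (s * EPsi.ff s) ^ 2 + EPsi.ff s ^ 2 = 1 := by
  have : √(1 + s ^ 2) ^ 2 = 1 + s ^ 2 := Real.sq_sqrt (by positivity)
  rw [EPsi.ff, mul_pow, inv_pow, this]
  field_simp
  ring

theorem good_edge (h : Ang l n) {α β : ℝ} (hα : 0 < α) (hβ : 0 < β) (h1 : α ^ 2 + β ^ 2 = 1) :
    Good l (α • vP (l / 2) + β • vQ (π / 4)) := by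
  obtain ⟨⟨L, hE⟩, -⟩ := icS_all.ezs l h.mem
  set ζ := ez l
  obtain ⟨ha, eA⟩ := tetS_all.ang.2.2 l h.mem
  have eB := tetS_all.ang.2.1
  have hmem := hE.mem
  have hconv := hE.conv
  rw [eA, eB] at hmem hconv
  set O := OG (l / 2) (π / 4)
  have z0 : ∀ s : ℝ, ζ (s, 0) = 0 := fun s => by
    have := hE.odd (s, 0)
    simp only [neg_zero] at this
    linarith
  have hneg : ∀ y ∈ HE (aL l) √2, ((y.1, -y.2) : P2) ∈ HE (aL l) √2 := fun y hy => by
    simpa [HE] using hy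
  have ep : α • vP (l / 2) + β • vQ (π / 4) = O (gn (α / β, 0) 0) := by
    have : EPsi.ff (α / β) = β := by
      rw [EPsi.ff, show 1 + (α / β) ^ 2 = β⁻¹ ^ 2 by field_simp; linarith,
        Real.sqrt_sq (by positivity), inv_inv]
    rw [edge_pt, this, div_mul_cancel₀ _ hβ.ne']
  have hs := EPsi.he_axis ha s2_pos (div_pos hα hβ)
  have low : ∀ y ∈ HE (aL l) √2, y.2 < 0 → gX O ζ y ∈ Xi l := fun y hy k => by
    obtain ⟨x, hx, -, -, e, -⟩ := hmem y hy k
    exact M_Xi (opn_M ⟨x, hx, e⟩)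
  have key : ∀ y ∈ HE (aL l) √2, ∀ z, O (gn y z) ∈ leafSet l → 0 < O (gn y z) 1 →
      0 < O (gn y z) 3 → z = ζ y := fun y hy z k k1 k3 => by
    rcases M_cases h k with ⟨x, hx, e⟩ | k
    · rw [← e] at k1 k3
      exact (hconv x hx y hy z e (opn_sign.2 k3).le (opn_sign.1 k1).le).2
    · obtain ⟨t, a, b, rfl | rfl, e⟩ := quad_top h k k3
      · have := gR_fix (l / 2) (π / 4) a b
        rw [← e, gR_OG] at this
        obtain ⟨e1, e2⟩ := tetS_all.inj _ _ _ _ _ this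
        have e3 : -y.2 = y.2 := congrArg Prod.snd e1
        rw [show y = (y.1, 0) from Prod.ext rfl (by linarith), z0]
        linarith
      · obtain ⟨s, a', b', -, -, e'⟩ := quad_side h k k1
        have e0 := tet_z (M_tet h (quad_M h k))
        have e1 := congrArg (fun x : E4 => x 0 + x 1) e
        simp [vP, vQ] at e1
        linarith [le_abs_self (O (gn y z) 1)]
  refine good_of (chartS_all.graph O ζ _ (EPsi.he_open _ _) hE.sol).1
    ⟨_, hs, by rw [gX, z0, ep]⟩ ?_ ?_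
  · rintro _ ⟨y, hy, rfl⟩
    rcases lt_trichotomy y.2 0 with k | k | k
    · exact low y hy k
    · rw [show y = (y.1, 0) from Prod.ext rfl k, gX, z0, edge_pt]
      exact M_Xi (arc_M h (Or.inl rfl) (Or.inl rfl) (mul_pos hy.1 (EPsi.ff_pos _)).le
        (EPsi.ff_pos _).le (ff_sq _))
    · have := Xi_gR h (Or.inl rfl) (Or.inl rfl) (low _ (hneg y hy) (neg_lt_zero.2 k))
      rw [gX, gR_OG, hE.odd] at this
      simpa [gX] using this
  · have p0 : ∀ i : Fin 4, i ≠ 2 → 0 < (α • vP (l / 2) + β • vQ (π / 4)) i := fun i hi => by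
      have := (trig h.mem).1
      fin_cases i <;> simp [vP, vQ] at hi ⊢ <;> positivity
    have c1 : ∀ i : Fin 4, i ≠ 2 → ∀ᶠ x in 𝓝 (α • vP (l / 2) + β • vQ (π / 4)), 0 < x i :=
      fun i hi => continuousAt_const.eventually_lt (by fun_prop) (p0 i hi)
    have c2 : ∀ i : Fin 4, i ≠ 2 → ∀ᶠ x in 𝓝 (α • vP (l / 2) + β • vQ (π / 4)),
        0 < gR (l / 2) (π / 4) x i := fun i hi =>
      continuousAt_const.eventually_lt (by fun_prop) (by rw [gR_fix]; exact p0 i hi)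
    have c3 := near_chart O (α / β, 0) 0 ((EPsi.he_open _ _).mem_nhds hs)
    rw [← ep] at c3
    filter_upwards [c1 0 (by decide), c1 1 (by decide), c1 3 (by decide), c2 1 (by decide),
      c2 3 (by decide), c3, (isOpen_Wn l).mem_nhds (mem_Wn h hα)] with x k0 k1 k3 j1 j3 k hw hx
    obtain ⟨y, hy, z, rfl⟩ := k (Xi_norm h hx)
    refine ⟨y, hy, ?_⟩
    rcases nf_zw h hx (add_pos k0 k1) hw with q | q
    · rw [gX, ← key y hy z q k1 k3]
    · rw [gR_OG] at q j1 j3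
      have := key _ (hneg y hy) _ q j1 j3
      rw [hE.odd, neg_inj] at this
      rw [gX, ← this]

/-! ### The vertex with a right angle -/

theorem OP_rot (A : ℝ) (w : E4) : OP A w = rot 0 A !₂[w 1, w 2, w 0, -w 3] :=
  ext4 (by simp [OP, mkO_apply, rot0]) (by simp [OP, mkO_apply, rot1])
    (by simp [OP, mkO_apply, rot2]; ring) (by simp [OP, mkO_apply, rot3]; ring)

theorem rf0_OP (A : ℝ) (y : P2) (z : ℝ) : rf0 (OP A (gn y z)) = OP A (gn (-y.1, y.2) z) := by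
  refine ext4 ?_ ?_ ?_ ?_ <;> simp [rf0_c, OP, mkO_apply, gn]

theorem rf1_OP (A : ℝ) (y : P2) (z : ℝ) : rf1 (OP A (gn y z)) = OP A (gn (y.1, -y.2) z) := by
  refine ext4 ?_ ?_ ?_ ?_ <;> simp [rf1_c, OP, mkO_apply, gn]

theorem pi_OP (A : ℝ) (y : P2) (z : ℝ) :
    rot π 0 (OP A (gn y z)) = OP A (gn (-y.1, -y.2) z) := by
  refine ext4 ?_ ?_ ?_ ?_ <;> simp [rot0, rot1, rot2, rot3, OP, mkO_apply, gn]

theorem gR_OP (A : ℝ) (y : P2) (z : ℝ) :
    gR A (π / 4) (OP A (gn y z)) = OP A (gn (y.2, y.1) (-z)) := by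
  rw [OP_rot, OP_rot, gR_rot, show 2 * (π / 4) - 0 = π / 2 by ring, show 2 * A - A = A by ring]
  have e : 1 + y.2 ^ 2 + y.1 ^ 2 = 1 + y.1 ^ 2 + y.2 ^ 2 := by ring
  refine ext4 ?_ ?_ ?_ ?_ <;> simp [rot0, rot1, rot2, rot3, cj_def, rf1_c, rf3_c, gn, e]

theorem OP_diag (A t : ℝ) : OP A (gn (t, t) 0)
    = EPsi.ff (√2 * t) • vP A + (√2 * t * EPsi.ff (√2 * t)) • vQ (π / 4) := by
  have e : 1 + (√2 * t) ^ 2 = 1 + t ^ 2 + t ^ 2 := by
    rw [mul_pow, Real.sq_sqrt (by norm_num)]; ring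
  refine ext4 ?_ ?_ ?_ ?_ <;> simp only [EPsi.ff, e] <;> simp [OP, mkO_apply, gn, vP, vQ]
  · linear_combination (-(t * (√(1 + t ^ 2 + t ^ 2))⁻¹) / 2) * s2
  · linear_combination (-(t * (√(1 + t ^ 2 + t ^ 2))⁻¹) / 2) * s2

theorem good_vP (h : Ang l n) : Good l (vP (l / 2)) := by
  obtain ⟨δ, hδ, U, L, -, hU, -⟩ := icS_all.cor l h.mem
  have hE := hU l (mem_ball_self hδ)
  set ζ := U l
  obtain ⟨ha, eA⟩ := tetS_all.ang.2.2 l h.mem
  have hmem := hE.mem
  have hconv := hE.conv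
  rw [eA] at hmem hconv
  set O := OP (l / 2)
  have z0 : ∀ s : ℝ, ζ (s, s) = 0 := fun s => by
    have := hE.anti (s, s)
    linarith
  have ep : vP (l / 2) = O (gn 0 0) := by
    have := OP_diag (l / 2) 0
    simp only [mul_zero, zero_mul, zero_smul, add_zero, EPsi.ff_zero, one_smul] at this
    exact this.symm
  have b1 : ∀ y ∈ ball (0 : P2) δ, ((-y.1, y.2) : P2) ∈ ball (0 : P2) δ := fun y hy =>
    EWedge.mem_ball0.2 (by simpa using EWedge.mem_ball0.1 hy)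
  have b2 : ∀ y ∈ ball (0 : P2) δ, ((y.1, -y.2) : P2) ∈ ball (0 : P2) δ := fun y hy =>
    EWedge.mem_ball0.2 (by simpa using EWedge.mem_ball0.1 hy)
  have b3 : ∀ y ∈ ball (0 : P2) δ, ((y.2, y.1) : P2) ∈ ball (0 : P2) δ := fun y hy =>
    EWedge.mem_ball0.2 (EWedge.mem_ball0.1 hy).symm
  have fix : ∀ (y : P2) (z a b : ℝ), O (gn y z) = a • vP (l / 2) + b • vQ (π / 4) → z = ζ y := by
    intro y z a b e
    have := gR_fix (l / 2) (π / 4) a b
    rw [← e, gR_OP] at this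
    obtain ⟨e1, e2⟩ := tetS_all.inj _ _ _ _ _ this
    have e3 : y.2 = y.1 := congrArg Prod.fst e1
    rw [show y = (y.1, y.1) from Prod.ext rfl e3, z0]
    linarith
  have key : ∀ y ∈ ball (0 : P2) δ, ∀ z, O (gn y z) ∈ leafSet l → 0 < O (gn y z) 3 →
      z = ζ y := fun y hy z k k3 => by
    rcases M_cases h k with ⟨x, hx, e⟩ | k
    · rw [← e] at k3
      exact (hconv x hx y hy z e (opn_sign.2 k3)).2
    · obtain ⟨t, a, b, rfl | rfl, e⟩ := quad_top h k k3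
      · exact fix y z a b e
      · rw [← hE.ev2]
        refine fix _ z a b ?_
        rw [← rf1_OP, e]
        refine ext4 ?_ ?_ ?_ ?_ <;> simp [rf1_c, vP, vQ]
  have key2 : ∀ y ∈ ball (0 : P2) δ, ∀ z, (O (gn y z) ∈ leafSet l ∨
      rot π 0 (O (gn y z)) ∈ leafSet l) → 0 < O (gn y z) 3 → z = ζ y := fun y hy z k k3 => by
    rcases k with k | k
    · exact key y hy z k k3
    · have e : rot π 0 (O (gn y z)) 3 = O (gn y z) 3 := by simp [rot3]
      rw [← e] at k3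
      rw [pi_OP] at k k3
      rw [key _ (b1 _ (b2 y hy)) z k k3]
      exact (hE.ev1 (y.1, -y.2)).trans (hE.ev2 y)
  refine good_of (chartS_all.graph O ζ _ isOpen_ball hE.sol).1
    ⟨0, mem_ball_self hδ, by rw [gX, ep]; exact congrArg (fun z => O (gn 0 z)) (z0 0)⟩ ?_ ?_
  · rintro _ ⟨y, hy, rfl⟩
    revert hy
    refine EWedge.reduce (Q := fun y => y ∈ ball (0 : P2) δ → gX O ζ y ∈ Xi l)
      (fun y H hy => ?_) (fun y H hy => ?_) (fun y H hy => ?_) (fun y k1 k2 hy => ?_) y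
    · have := Xi_rf0 h (H (b1 y hy))
      rw [gX, rf0_OP, hE.ev1] at this
      simpa [gX] using this
    · have := Xi_rf1 h (H (b2 y hy))
      rw [gX, rf1_OP, hE.ev2] at this
      simpa [gX] using this
    · have := Xi_gR h (Or.inl rfl) (Or.inl rfl) (H (b3 y hy))
      rw [gX, gR_OP, hE.anti] at this
      simpa [gX] using this
    · rcases k2.eq_or_lt with e | e
      · rw [show y = (y.1, y.1) from Prod.ext rfl e, gX, z0, OP_diag]
        have := EPsi.ff_pos (√2 * y.1)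
        exact M_Xi (arc_M h (Or.inl rfl) (Or.inl rfl) this.le
          (mul_nonneg (mul_nonneg s2_pos.le (k1.trans k2)) this.le)
          (by linarith [ff_sq (√2 * y.1)]))
      · obtain ⟨-, x, hx, -, e, -⟩ := hmem y hy (by rwa [abs_of_nonneg k1])
        exact M_Xi (opn_M ⟨x, hx, e⟩)
  · have p0 : 0 < vP (l / 2) 3 := by simpa [vP] using (trig h.mem).1
    have c1 : ∀ᶠ x in 𝓝 (vP (l / 2)), 0 < x 3 := continuousAt_const.eventually_lt (by fun_prop) p0
    have c2 : ∀ᶠ x in 𝓝 (vP (l / 2)), 0 < gR (l / 2) (π / 4) x 3 :=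
      continuousAt_const.eventually_lt (by fun_prop)
        (by rwa [gR_vP, show 2 * (l / 2) - l / 2 = l / 2 by ring])
    have c3 := near_chart O 0 0 (ball_mem_nhds 0 hδ)
    rw [← ep] at c3
    have c4 : vP (l / 2) ∈ Wn l := by simpa using mem_Wn h (β := 0) (t := 0) one_pos
    filter_upwards [c1, c2, c3, (isOpen_Wn l).mem_nhds c4] with x k3 j3 k hw hx
    obtain ⟨y, hy, z, rfl⟩ := k (Xi_norm h hx)
    refine ⟨y, hy, ?_⟩
    rcases nf_w h hx hw with q | q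
    · rw [gX, ← key2 y hy z q k3]
    · rw [gR_OP] at q j3
      have := key2 _ (b3 y hy) _ q j3
      rw [hE.anti, neg_inj] at this
      rw [gX, ← this]

end Pool.Agent.Lib.MP_16d934_gt.X
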