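import Pool.Agent.Lib.MP_16d934_gt.X.Top

/-! The classification as an equivalence. -/

set_option autoImplicit false

open Set Metric Filter Topology
open scoped InnerProductSpace NNReal Real

noncomputable section

namespace Pool.Agent.Lib.MP_16d934_gt.X

theorem fix_conj (g : Iso) (f : E4 → E4) : Spec.Fix (g ∘ f ∘ g.symm) = g '' Spec.Fix f := by
  ext x
  obtain ⟨y, rfl⟩ := g.surjective x
  rw [g.injective.mem_set_image]
  change g (f (g.symm (g y))) = g y ↔ f y = y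
  rw [g.symm_apply_apply, g.injective.eq_iff]

theorem sep_conj (g : Iso) {S : Set E4} {f : E4 → E4} (h : Spec.Sep S f) :
    Spec.Sep (g '' S) (g ∘ f ∘ g.symm) := fun k => h (by
  rw [fix_conj, ← image_sdiff g.injective] at k
  exact g.toHomeomorph.isPreconnected_image.1 k)

theorem img_conj (g : Iso) (f : E4 → E4) (A : Set E4) :
    (g ∘ f ∘ g.symm) '' (g '' A) = g '' (f '' A) := by
  simp [image_image]

theorem o4_conj (g : Iso) {f : E4 → E4} (h : Spec.IsO4 f) : Spec.IsO4 (g ∘ f ∘ g.symm) :=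
  fun _ _ => (isO4_iso g _ _).trans ((h _ _).trans (isO4_iso g.symm _ _))

theorem type0_conj (g : Iso) {S : Set E4} {τ ρ : E4 → E4} (h : Spec.Type0 S τ ρ) :
    Spec.Type0 (g '' S) (g ∘ τ ∘ g.symm) (g ∘ ρ ∘ g.symm) := by
  have e : (g ∘ τ ∘ g.symm) ∘ g ∘ ρ ∘ g.symm = g ∘ (τ ∘ ρ) ∘ g.symm := funext fun x => by simp
  refine ⟨o4_conj g h.isoτ, o4_conj g h.isoρ, fun x => by simp [h.invτ], fun x => by simp [h.invρ],
    fun x => by simp [h.comm], by rw [img_conj, h.mapτ], by rw [img_conj, h.mapρ], ?_, ?_, ?_, ?_,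
    ?_, ?_⟩
  · obtain ⟨x, hx, k⟩ := h.effτ
    exact ⟨g x, mem_image_of_mem g hx, by simpa using k⟩
  · obtain ⟨x, hx, k⟩ := h.effρ
    exact ⟨g x, mem_image_of_mem g hx, by simpa using k⟩
  · obtain ⟨x, hx, k⟩ := h.effτρ
    exact ⟨g x, mem_image_of_mem g hx, by simpa using k⟩
  · rw [e]
    exact h.sep.imp (And.imp (sep_conj g) (sep_conj g))
      (Or.imp (And.imp (sep_conj g) (sep_conj g)) (And.imp (sep_conj g) (sep_conj g)))
  · obtain ⟨F, Fc, F1, Fi⟩ := h.genus0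
    refine ⟨fun x => F (g.symm x), Fc.comp g.symm.continuous.continuousOn ?_, ?_, ?_⟩
    · rintro _ ⟨x, hx, rfl⟩
      simpa using hx
    · rintro _ ⟨x, hx, rfl⟩
      simpa using F1 x hx
    · rintro _ ⟨x, hx, rfl⟩ _ ⟨y, hy, rfl⟩
      simpa using Fi x hx y hy
  · rw [fix_conj, ← image_inter g.injective]
    rintro _ ⟨x, hx, rfl⟩
    have k := g.toHomeomorph.image_connectedComponentIn hx
    change g '' _ = connectedComponentIn (g '' _) (g x) at k
    rw [← k, img_conj, h.ovals x hx]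

theorem main_iff (γ : ℕ) (hγ : 1 ≤ γ) :
    (∃! M, Spec.LawsonDisc γ M) ∧ ∀ M, Spec.LawsonDisc γ M → ∀ S : Set E4,
      (Spec.ClosedMin γ S ∧ ∃ τ ρ : E4 → E4, Spec.Type0 S τ ρ) ↔
        Spec.Congruent {x | Spec.Orbit γ M x} S := by
  refine ⟨(main' γ hγ).1, fun M hM S => ⟨fun ⟨a, τ, ρ, b⟩ => (main' γ hγ).2 M hM S τ ρ a b, ?_⟩⟩
  rintro ⟨f, hf, rfl⟩
  obtain ⟨g, hg⟩ := isO4_exists f hf
  obtain rfl : ⇑g = f := funext hg
  obtain rfl := (lawS_all γ hγ M).1 ((lawsonDisc_iff γ M).1 hM)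
  simp only [orbit_iff]
  rw [orbit_eq hγ, closedMin_iff]
  obtain ⟨a, b, c, d⟩ := closed_Xi hγ
  exact ⟨⟨invS_all.min g _ a, b.image g.continuous, c.image _ g.continuous.continuousOn,
    (invS_all.betti g _).trans d⟩, _, _, type0_conj g (type0_Xi (ang_gam hγ))⟩

end Pool.Agent.Lib.MP_16d934_gt.X
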