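import Pool.Agent.Lib.MP_16d934_gt.X.Base

/-! Odd reflection of a wedge graph around the vertex. -/

set_option autoImplicit false

open Set Metric Filter Topology
open scoped InnerProductSpace NNReal Real

noncomputable section

namespace Pool.Agent.Lib.MP_16d934_gt.X

open ELaw

/-- rotation of the plane -/
def Rt (φ : ℝ) (y : P2) : P2 :=
  (Real.cos φ * y.1 - Real.sin φ * y.2, Real.sin φ * y.1 + Real.cos φ * y.2)

/-- open round disc -/
def Dr (r : ℝ) : Set P2 := {y | y.1 ^ 2 + y.2 ^ 2 < r ^ 2}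

theorem Rt_Rt (φ ψ : ℝ) (y : P2) : Rt φ (Rt ψ y) = Rt (φ + ψ) y := by
  ext <;> simp [Rt, Real.cos_add, Real.sin_add] <;> ring

theorem Rt_zero (y : P2) : Rt 0 y = y := by simp [Rt]

theorem Rt_sq (φ : ℝ) (y : P2) : (Rt φ y).1 ^ 2 + (Rt φ y).2 ^ 2 = y.1 ^ 2 + y.2 ^ 2 := by
  simp only [Rt]
  linear_combination (y.1 ^ 2 + y.2 ^ 2) * Real.sin_sq_add_cos_sq φ

theorem Rt_Dr {φ r : ℝ} {y : P2} : Rt φ y ∈ Dr r ↔ y ∈ Dr r := by
  simp only [Dr, mem_ofPred_eq, Rt_sq]

theorem Rt_conj (φ : ℝ) (y : P2) : (((Rt φ y).1, -(Rt φ y).2) : P2) = Rt (-φ) (y.1, -y.2) := by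
  ext <;> simp [Rt]
  ring

theorem isOpen_Dr (r : ℝ) : IsOpen (Dr r) := isOpen_lt (by fun_prop) continuous_const

/-- the rotation as a linear equivalence -/
def RtL (φ : ℝ) : P2 ≃L[ℝ] P2 := LinearEquiv.toContinuousLinearEquiv
  { toFun := Rt φ
    invFun := Rt (-φ)
    map_add' := fun x y => by ext <;> simp [Rt] <;> ring
    map_smul' := fun c x => by ext <;> simp [Rt] <;> ring
    left_inv := fun y => by rw [Rt_Rt, neg_add_cancel, Rt_zero]
    right_inv := fun y => by rw [Rt_Rt, add_neg_cancel, Rt_zero] }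

theorem RtL_apply (φ : ℝ) (y : P2) : RtL φ y = Rt φ y := rfl

theorem dot_Rt (φ : ℝ) (x y : P2) : dot (RtL φ x) (RtL φ y) = dot x y := by
  simp only [RtL_apply, dot, Rt]
  linear_combination (x.1 * y.1 + x.2 * y.2) * Real.sin_sq_add_cos_sq φ

variable {l : ℝ} {n : ℕ}

theorem tan_pos (h : Ang l n) : 0 < Real.tan (l / 2) := by
  rw [Real.tan_eq_sin_div_cos]
  exact div_pos (trig h.mem).1 (trig h.mem).2

theorem tan_le (h : Ang l n) {p q : ℝ} :
    p ≤ Real.tan (l / 2) * q ↔ p * Real.cos (l / 2) ≤ Real.sin (l / 2) * q := by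
  rw [Real.tan_eq_sin_div_cos, div_mul_eq_mul_div, le_div_iff₀ (trig h.mem).2]

theorem tan_lt (h : Ang l n) {p q : ℝ} :
    p < Real.tan (l / 2) * q ↔ p * Real.cos (l / 2) < Real.sin (l / 2) * q := by
  rw [Real.tan_eq_sin_div_cos, div_mul_eq_mul_div, lt_div_iff₀ (trig h.mem).2]

/-- every point can be rotated into the closed wedge -/
theorem wedge_cover (h : Ang l n) (y : P2) :
    ∃ (k : ℤ) (y₀ : P2), |y₀.2| ≤ Real.tan (l / 2) * y₀.1 ∧ y = Rt (k * l) y₀ := by
  have hl := h.pos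
  set w : ℂ := ⟨y.1, y.2⟩
  set k := round (w.arg / l)
  set β := w.arg - k * l with hβ
  have h1 : |β| ≤ l / 2 := by
    have := abs_sub_round (w.arg / l)
    rw [show β = (w.arg / l - k) * l by rw [hβ]; field_simp, abs_mul, abs_of_pos hl]
    nlinarith
  refine ⟨k, (‖w‖ * Real.cos β, ‖w‖ * Real.sin β), (tan_le h).2 ?_, ?_⟩
  · have h2 : 0 ≤ Real.sin (l / 2 - |β|) := Real.sin_nonneg_of_nonneg_of_le_pi (by linarith)
      (by linarith [abs_nonneg β, h.mem.2])
    rw [Real.sin_sub, Real.cos_abs,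
      ← Real.abs_sin_eq_sin_abs_of_abs_le_pi (by linarith [h.mem.2])] at h2
    simp only [abs_mul, abs_norm]
    nlinarith [mul_nonneg (norm_nonneg w) h2]
  · have e : w.arg = k * l + β := by rw [hβ]; ring
    have a : ‖w‖ * Real.cos w.arg = y.1 := Complex.norm_mul_cos_arg w
    have b : ‖w‖ * Real.sin w.arg = y.2 := Complex.norm_mul_sin_arg w
    rw [e, Real.cos_add] at a
    rw [e, Real.sin_add] at b
    ext <;> simp only [Rt] <;> linarith

theorem wedge_sec (h : Ang l n) {y : P2} (hy : |y.2| ≤ Real.tan (l / 2) * y.1) {k : ℤ}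
    (h1 : |(Rt (k * l) y).2| < Real.tan (l / 2) * (Rt (k * l) y).1) : ∃ i : ℤ, k = 2 * n * i := by
  refine sec0 h (w := ⟨y.1, y.2⟩) ((tan_le h).1 hy) ?_
  have := (tan_lt h).1 h1
  simp only [Rt] at this
  simp only [Complex.mul_im, Complex.mul_re, cis_re, cis_im]
  rwa [add_comm]

/-- retraction of the plane onto the closed wedge -/
def ret (c : ℝ) (y : P2) : P2 := (max y.1 (c⁻¹ * |y.2|), y.2)

theorem lip_ret (c : ℝ) : ∃ K, LipschitzWith K (ret c) := by
  have h2 : LipschitzWith (1 * 1) fun y : P2 => |y.2| :=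
    lipschitzWith_one_norm.comp (LipschitzWith.prod_snd (α := ℝ) (β := ℝ))
  have h3 : LipschitzWith (‖c⁻¹‖₊ * (1 * 1)) fun y : P2 => c⁻¹ * |y.2| :=
    (lipschitzWith_smul c⁻¹).comp h2
  exact ⟨_, (LipschitzWith.prod_fst.max h3).prodMk LipschitzWith.prod_snd⟩

/-- the alternating sum of the rotated wedge graphs -/
def alt (l : ℝ) (n : ℕ) (ζ : P2 → ℝ) (y : P2) : ℝ :=
  ∑ k ∈ Finset.range (2 * n), (-1) ^ k * ζ (ret (Real.tan (l / 2)) (Rt (-(k * l)) y))

theorem alt_succ (h : Ang l n) (ζ : P2 → ℝ) (y : P2) : alt l n ζ (Rt l y) = -alt l n ζ y := by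
  set g : ℕ → ℝ := fun k => (-1) ^ k * ζ (ret (Real.tan (l / 2)) (Rt (-(k * l)) (Rt l y))) with hg
  have e1 : g (2 * n) = g 0 := by
    have e : -(((2 * n : ℕ) : ℝ) * l) = -(2 * π) := by push_cast; linear_combination -2 * h.eq
    simp only [hg, e, pow_mul]
    simp [Rt]
  have e2 := (Finset.sum_range_succ' g (2 * n)).symm.trans (Finset.sum_range_succ g (2 * n))
  rw [e1, add_left_inj] at e2
  change ∑ k ∈ Finset.range (2 * n), g k = _
  rw [← e2, alt, ← Finset.sum_neg_distrib]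
  refine Finset.sum_congr rfl fun k _ => ?_
  simp only [hg, Rt_Rt, pow_succ]
  rw [show -(((k + 1 : ℕ) : ℝ) * l) + l = -(k * l) by push_cast; ring]
  ring

theorem alt_int (h : Ang l n) (ζ : P2 → ℝ) (k : ℤ) (y : P2) :
    alt l n ζ (Rt (k * l) y) = (-1) ^ k * alt l n ζ y := by
  induction k using Int.induction_on with
  | zero => simp [Rt_zero]
  | succ k ih =>
    rw [show (((k : ℤ) + 1 : ℤ) : ℝ) * l = l + ((k : ℤ) : ℝ) * l by push_cast; ring, ← Rt_Rt,
      alt_succ h, ih, zpow_add_one₀ (by norm_num)]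
    ring
  | pred k ih =>
    have := alt_succ h ζ (Rt ((-(k : ℤ) - 1 : ℤ) * l) y)
    rw [Rt_Rt, show l + ((-(k : ℤ) - 1 : ℤ) : ℝ) * l = ((-(k : ℤ) : ℤ) : ℝ) * l by push_cast; ring,
      ih] at this
    rw [zpow_sub_one₀ (by norm_num)]
    norm_num at this ⊢
    linarith

theorem lip_sum {ι : Type} (s : Finset ι) (f : ι → P2 → ℝ) (U : Set P2)
    (hf : ∀ i ∈ s, ∃ K, LipschitzOnWith K (f i) U) :
    ∃ K, LipschitzOnWith K (fun y => ∑ i ∈ s, f i y) U := by
  classical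
  induction s using Finset.induction_on with
  | empty => exact ⟨0, by simp⟩
  | insert a s ha ih =>
    obtain ⟨K, hK⟩ := ih fun i hi => hf i (Finset.mem_insert_of_mem hi)
    obtain ⟨K', hK'⟩ := hf a (Finset.mem_insert_self _ _)
    exact ⟨_, by simpa only [Finset.sum_insert ha] using hK'.add hK⟩

/-- the wedge graph extends to a solution on a disc that is odd under the rotation by `l` -/
theorem wedge_ext (h : Ang l n) {ζ : P2 → ℝ} {ρ : ℝ} {L : ℝ≥0} (hρ : 0 < ρ)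
    (sol : Sol ζ (Wd (l / 2) ρ)) (lip : LipschitzOnWith L ζ (Wc (l / 2) ρ))
    (side : ∀ y ∈ Wc (l / 2) ρ \ Wd (l / 2) ρ, ζ y = 0) (ev : ∀ y : P2, ζ (y.1, -y.2) = ζ y) :
    ∃ r, 0 < r ∧ r ≤ ρ ∧ ∃ Z : P2 → ℝ, Sol Z (Dr r) ∧ (∀ y ∈ Wc (l / 2) r, Z y = ζ y) ∧
      ∀ (k : ℤ) (y : P2), Z (Rt (k * l) y) = (-1) ^ k * Z y := by
  have hc := tan_pos h
  obtain ⟨t1, t2⟩ := trig h.mem
  set c := Real.tan (l / 2) with hcd
  set r := ρ / (1 + c⁻¹) with hr
  have ci : 0 < c⁻¹ := inv_pos.2 hc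
  have r0 : 0 < r := by positivity
  have r1 : r * (1 + c⁻¹) = ρ := div_mul_cancel₀ _ (by positivity)
  have r2 : r ≤ ρ := by nlinarith
  have r3 : r ^ 2 ≤ ρ ^ 2 := pow_le_pow_left₀ r0.le r2 2
  have id1 : ∀ y : P2, |y.2| ≤ c * y.1 → ret c y = y := fun y hy =>
    Prod.ext (max_eq_left ((inv_mul_le_iff₀ hc).2 hy)) rfl
  have maps : ∀ y ∈ Dr r, ret c y ∈ Wc (l / 2) ρ := fun y hy => by
    refine ⟨(inv_mul_le_iff₀ hc).1 (le_max_right _ _), ?_⟩
    have k : y.1 ^ 2 + y.2 ^ 2 < r ^ 2 := hy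
    simp only [ret]
    rcases le_total y.1 (c⁻¹ * |y.2|) with e | e
    · rw [max_eq_right e, mul_pow, sq_abs, ← r1]
      have : y.2 ^ 2 < r ^ 2 := by nlinarith
      nlinarith [mul_pos ci ci, mul_pos ci (mul_pos r0 r0)]
    · rw [max_eq_left e]
      linarith
  have zero : ∀ y ∈ Dr r, ¬ |y.2| < c * y.1 → ζ (ret c y) = 0 := fun y hy k =>
    side _ ⟨maps y hy, fun k' => by
      have e : ret c y = (c⁻¹ * |y.2|, y.2) :=
        Prod.ext (max_eq_right ((le_inv_mul_iff₀ hc).2 (not_lt.1 k))) rfl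
      have := k'.1
      rw [e] at this
      simp only [← hcd, ← mul_assoc, mul_inv_cancel₀ hc.ne', one_mul] at this
      exact lt_irrefl _ this⟩
  set Z := alt l n ζ with hZ
  have rot : ∀ (k : ℤ) (y : P2), Z (Rt (k * l) y) = (-1) ^ k * Z y := alt_int h ζ
  have eq : ∀ y ∈ Dr r, |y.2| ≤ c * y.1 → Z y = ζ y := fun y hy k => by
    have hn := h.two
    rw [hZ, alt, Finset.sum_eq_single_of_mem 0 (Finset.mem_range.2 (by omega))]
    · simp [Rt_zero, ← hcd, id1 y k]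
    · intro j hj j0
      rw [zero _ (Rt_Dr.2 hy), mul_zero]
      intro k'
      obtain ⟨i, hi⟩ := wedge_sec h k (k := -(j : ℤ)) (by push_cast; rwa [neg_mul])
      have j1 : (j : ℤ) < 2 * n := by exact_mod_cast Finset.mem_range.1 hj
      have j2 : (0 : ℤ) < j := by omega
      have n0 : (0 : ℤ) < 2 * n := by omega
      have : i < 0 := by nlinarith
      nlinarith
  have even : ∀ y ∈ Dr r, Z (y.1, -y.2) = Z y := fun y hy => by
    obtain ⟨k, y₀, k1, rfl⟩ := wedge_cover h y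
    have h0 := Rt_Dr.1 hy
    rw [Rt_conj, ← neg_mul, ← Int.cast_neg, rot, rot, eq _ h0 k1,
      eq _ (by simpa [Dr] using h0) (by simpa using k1), ev, zpow_neg, ← inv_zpow]
    norm_num
  obtain ⟨K, hK⟩ : ∃ K, LipschitzOnWith K Z (Dr r) := by
    refine lip_sum _ _ _ fun k _ => ?_
    obtain ⟨K, hK⟩ := lip_ret c
    have k1 := lip.comp (hK.comp (RtL (-(k * l))).lipschitz).lipschitzOnWith
      (s := Dr r) fun y hy => maps _ (Rt_Dr.2 hy)
    exact ⟨_, (lipschitzWith_smul ((-1 : ℝ) ^ k)).comp_lipschitzOnWith k1⟩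
  have sol0 : ∀ y ∈ Dr r, |y.2| < c * y.1 → Sol Z {y} := fun y hy k => by
    have : IsOpen {x : P2 | |x.2| < c * x.1} := isOpen_lt (by fun_prop) (by fun_prop)
    refine EWedge.sol_congr ?_ (EWedge.sol_mono sol (singleton_subset_iff.2
      ⟨k, lt_of_lt_of_le hy r3⟩))
    filter_upwards [(isOpen_Dr r).mem_nhds hy, this.mem_nhds k] with x a b
    exact eq x a b.le
  set ν : P2 := (Real.sin (l / 2), -Real.cos (l / 2)) with hν
  have hrf : ∀ y : P2, rfl2 ν y = Rt l (y.1, -y.2) := fun y => by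
    have a := Real.cos_two_mul (l / 2)
    have b := Real.sin_two_mul (l / 2)
    rw [show 2 * (l / 2) = l by ring] at a b
    ext <;> simp only [rfl2, dot, hν, Rt, Prod.fst_sub, Prod.snd_sub, Prod.smul_fst, Prod.smul_snd,
      smul_eq_mul, a, b]
    · linear_combination (-2 * y.1) * Real.sin_sq_add_cos_sq (l / 2)
    · ring
  have hrr : ∀ y : P2, rfl2 ν (rfl2 ν y) = y := fun y => by
    rw [hrf, hrf, Rt_conj, Rt_Rt, add_neg_cancel, Rt_zero]
    simp
  have sol1 : ∀ y ∈ Dr r, y.2 = c * y.1 → 0 < y.1 → Sol Z {y} := fun y hy k k0 => by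
    set U₀ : Set P2 := Dr r ∩ {x | 0 < x.1 ∧ 0 < x.2}
    have o0 : IsOpen U₀ := (isOpen_Dr r).inter
      ((isOpen_lt continuous_const continuous_fst).inter (isOpen_lt continuous_const continuous_snd))
    have o1 : IsOpen (U₀ ∩ rfl2 ν ⁻¹' U₀) :=
      o0.inter (o0.preimage (by unfold rfl2 dot; fun_prop))
    have hl : LipschitzOnWith K Z (U₀ ∩ rfl2 ν ⁻¹' U₀) := hK.mono fun x hx => hx.1.1
    have y0 : y ∈ U₀ := ⟨hy, k0, by rw [k]; positivity⟩
    have y1 : rfl2 ν y = y := by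
      have : dot y ν = 0 := by
        simp only [dot, hν, k, hcd, Real.tan_eq_sin_div_cos]
        field_simp
        ring
      simp [rfl2, this]
    refine EWedge.sol_mono (EWedge.sol_of_weak regS_all cwS_all o1 hl (remS_all.1 _ _ _ ν o1
      (by simp only [dot, hν]; linear_combination Real.sin_sq_add_cos_sq (l / 2))
      (fun x hx => ⟨⟨hx.2, by rw [mem_preimage, hrr]; exact hx.1⟩, ?_⟩) hl
      (EWedge.weak_of_sol cwS_all (o1.inter (isOpen_lt (by fun_prop) (by unfold dot; fun_prop)))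
        (EWedge.sol_of_pt fun x hx => sol0 x hx.1.1.1 ?_))))
      (singleton_subset_iff.2 ⟨y0, by rwa [mem_preimage, y1]⟩)
    · have := rot 1 (x.1, -x.2)
      rw [Int.cast_one, one_mul, even x hx.1.1] at this
      rw [hrf, this]
      simp
    · rw [abs_of_pos hx.1.1.2.2, tan_lt h]
      have := hx.2
      simp only [dot, hν, mem_ofPred_eq] at this
      linarith
  have solc : ∀ y ∈ Dr r, Sol Z {(y.1, -y.2)} → Sol Z {y} := fun y hy k => by
    have := EWedge.sol_orth tetS_all ((ContinuousLinearEquiv.refl ℝ ℝ).prodCongr (.neg ℝ))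
      (fun x y => by simp [dot]) (y := y) k
    refine EWedge.sol_congr ?_ this
    filter_upwards [(isOpen_Dr r).mem_nhds hy] with x hx
    exact (even x hx).symm
  have sol2 : ∀ y ∈ Dr r, y ≠ 0 → Sol Z {y} := fun y hy y0 => by
    obtain ⟨k, y₀, k1, rfl⟩ := wedge_cover h y
    have h0 := Rt_Dr.1 hy
    have s0 : Sol Z {y₀} := by
      rcases k1.eq_or_lt with e | e
      · have p0 : 0 < y₀.1 := by
          refine ((mul_nonneg_iff_of_pos_left hc).1 (e ▸ abs_nonneg _)).lt_of_ne fun e' => y0 ?_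
          rw [← e', mul_zero, abs_eq_zero] at e
          simp [Rt, ← e', e]
        rcases abs_choice y₀.2 with e' | e' <;> rw [e'] at e
        · exact sol1 _ h0 e p0
        · exact solc _ h0 (sol1 _ (by simpa [Dr] using h0) e p0)
      · exact sol0 _ h0 e
    have s1 := EWedge.sol_orth tetS_all (RtL (-(k * l))) (dot_Rt _) (u := Z) (y := Rt (k * l) y₀)
      (by rwa [RtL_apply, Rt_Rt, neg_add_cancel, Rt_zero])
    have e : ∀ x, Z (RtL (-(k * l)) x) = (-1) ^ (-k) * Z x := fun x => by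
      rw [RtL_apply, ← neg_mul, ← Int.cast_neg, rot]
    rcases Int.even_or_odd k with q | q
    · simpa only [e, q.neg.neg_one_zpow, one_mul] using s1
    · simpa only [e, q.neg.neg_one_zpow, neg_one_mul, neg_neg] using tetS_all.neg _ _ s1
  exact ⟨r, r0, r2, Z, EWedge.sol_of_weak regS_all cwS_all (isOpen_Dr r) hK
    (remS_all.2 _ _ _ 0 (isOpen_Dr r) hK (EWedge.weak_of_sol cwS_all
      ((isOpen_Dr r).sdiff isClosed_singleton) (EWedge.sol_of_pt fun y hy => sol2 y hy.1 hy.2))),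
    fun y hy => eq y hy.2 hy.1, rot⟩

end Pool.Agent.Lib.MP_16d934_gt.X
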