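import Pool.Agent.Lib.MP_16d934_gt.X.Edge
import Pool.Agent.Lib.MP_16d934_gt.X.Wedge

/-! The union of the rotated leaves is a smooth embedded minimal surface. -/

set_option autoImplicit false

open Set Metric Filter Topology
open scoped InnerProductSpace NNReal Real

noncomputable section

namespace Pool.Agent.Lib.MP_16d934_gt.X

open ELaw

variable {l : ℝ} {n : ℕ}

theorem gn_Rt (φ : ℝ) (y : P2) (z : ℝ) : √(1 + (Rt φ y).1 ^ 2 + (Rt φ y).2 ^ 2 + z ^ 2)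
    = √(1 + y.1 ^ 2 + y.2 ^ 2 + z ^ 2) := by
  rw [add_assoc 1, Rt_sq, ← add_assoc]

theorem rot_OQ (B φ : ℝ) (y : P2) (z : ℝ) :
    rot 0 φ (OQ 0 B (gn y z)) = OQ 0 B (gn (Rt φ y) z) := by
  rw [gn, gn, gn_Rt]
  refine ext4 ?_ ?_ ?_ ?_ <;> simp [rot0, rot1, rot2, rot3, OQ, mkO_apply, Rt] <;> ring

theorem flip_OQ (φ : ℝ) (y : P2) (z : ℝ) :
    rot (π / 2) φ (rf1 (OQ 0 (π / 4) (gn y z))) = OQ 0 (π / 4) (gn (Rt φ y) (-z)) := by
  rw [gn, gn, gn_Rt, neg_sq]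
  refine ext4 ?_ ?_ ?_ ?_ <;> simp [rot0, rot1, rot2, rot3, rf1_c, OQ, mkO_apply, Rt] <;> ring

theorem OQ_c (B : ℝ) (y : P2) (z : ℝ) :
    OQ 0 B (gn y z) 0 = (Real.cos B - z * Real.sin B) / rho y z ∧
    OQ 0 B (gn y z) 1 = (Real.sin B + z * Real.cos B) / rho y z ∧
    OQ 0 B (gn y z) 2 = y.1 / rho y z ∧ OQ 0 B (gn y z) 3 = y.2 / rho y z := by
  refine ⟨?_, ?_, ?_, ?_⟩ <;> simp [OQ, mkO_apply, gn, rho] <;> ring

theorem good_vQ (h : Ang l n) : Good l (vQ (π / 4)) := by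
  have hu := h.leaf
  obtain ⟨ha, eA⟩ := tetS_all.ang.2.2 l h.mem
  have eB := tetS_all.ang.2.1
  have hμ := (radoS_all.sign _ _ _ hu 0 (EPsi.zero_mem _ _)).2.1
  set μ := aa (gX O0 (lf l) 0)
  have h1 : 0 < √(1 - μ) := Real.sqrt_pos.2 (sub_pos.2 hμ)
  have h2 : √(1 - μ) ^ 2 = 1 - μ := Real.sq_sqrt (sub_pos.2 hμ).le
  obtain ⟨L, hL⟩ := wedgeS_all √(1 - μ) μ √2 h1 (by
    rw [h2, lt_div_iff₀ (by linarith)]; nlinarith) s2_pos
  obtain ⟨ζ, hsol, hlip, hside, hev, hmem, hconv⟩ := hL _ _ _ le_rfl hu le_rfl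
  rw [eA] at hsol hlip hside hmem hconv
  rw [eB] at hmem hconv
  obtain ⟨r, r0, r1, Z, sol, eq, rt⟩ := wedge_ext h h1 hsol hlip hside hev
  have r2 : r ^ 2 ≤ √(1 - μ) ^ 2 := pow_le_pow_left₀ r0.le r1 2
  set O := OQ 0 (π / 4)
  have hc := tan_pos h
  have sd : ∀ y ∈ Dr r, |y.2| = Real.tan (l / 2) * y.1 → Z y = 0 := fun y hy k => by
    rw [eq y ⟨k.le, hy⟩]
    exact hside y ⟨⟨k.le, lt_of_lt_of_le hy r2⟩, fun k' => k'.1.ne k⟩
  have d0 : (0 : P2) ∈ Dr r := by simpa [Dr] using pow_pos r0 2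
  have ep : vQ (π / 4) = O (gn 0 0) := by
    obtain ⟨a0, a1, a2, a3⟩ := OQ_c (π / 4) 0 0
    refine ext4 ?_ ?_ ?_ ?_ <;> simp [O, a0, a1, a2, a3, vQ, rho]
  have base : ∀ y ∈ Dr r, |y.2| ≤ Real.tan (l / 2) * y.1 → O (gn y (Z y)) ∈ leafSet l := by
    intro y hy k
    rcases k.eq_or_lt with e | e
    · obtain ⟨a0, a1, a2, a3⟩ := OQ_c (π / 4) y 0
      have p := EWedge.rho_pos y 0
      rw [sd y hy e]
      refine quad_M h ⟨by rw [LinearIsometryEquiv.norm_map, EWedge.norm_gn], ?_, ?_⟩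
      · rw [a2, a3, abs_div, abs_of_pos p, e, aL]
        ring
      · rw [a0, a1, abs_div, abs_of_pos p]
        simp [abs_div, abs_of_pos s2_pos]
    · obtain ⟨-, x, hx, -, e', -⟩ := hmem y ⟨e, lt_of_lt_of_le hy r2⟩
      rw [eq y ⟨k, hy⟩]
      exact opn_M ⟨x, hx, e'⟩
  have key : ∀ y ∈ Dr r, ∀ z, O (gn y z) ∈ leafSet l → 0 < O (gn y z) 1 → z = Z y := by
    intro y hy z k k1
    rcases M_cases h k with ⟨x, hx, e⟩ | k
    · rw [← e] at k1
      obtain ⟨a, b⟩ := hconv x hx (opn_sign.1 k1) y z e (lt_of_lt_of_le hy r2)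
      rw [eq y ⟨a.1.le, hy⟩, b]
    · obtain ⟨a0, a1, a2, a3⟩ := OQ_c (π / 4) y z
      have p := EWedge.rho_pos y z
      have b1 := mul_left_cancel₀ s2_pos.ne' k.2.2
      have b2 := k.2.1
      rw [abs_of_pos k1, a0, a1, div_left_inj' p.ne', Real.cos_pi_div_four,
        Real.sin_pi_div_four] at b1
      rw [a2, a3, abs_div, abs_of_pos p, aL, mul_assoc, mul_right_inj' s2_pos.ne',
        ← mul_div_assoc, div_left_inj' p.ne'] at b2
      rw [sd y hy b2]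
      have : z * √2 = 0 := by linarith
      exact (mul_eq_zero.1 this).resolve_right s2_pos.ne'
  refine good_of (chartS_all.graph O Z _ (isOpen_Dr r) sol).1
    ⟨0, d0, by rw [gX, sd 0 d0 (by simp), ep]⟩ ?_ ?_
  · rintro _ ⟨y, hy, rfl⟩
    obtain ⟨k, y₀, k1, rfl⟩ := wedge_cover h y
    have b := M_Xi (base y₀ (Rt_Dr.1 hy) k1)
    rw [gX, rt]
    rcases Int.even_or_odd k with q | q
    · have := Xi_rot (j := 0) (k := k) (by simpa using q) b
      rwa [Int.cast_zero, zero_mul, rot_OQ, ← one_mul (Z y₀), ← q.neg_one_zpow (α := ℝ)] at this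
    · have := Xi_rot (j := 1) (k := k) (odd_one.add_odd q) (Xi_rf1 h b)
      rwa [Int.cast_one, one_mul, flip_OQ, ← neg_one_mul (Z y₀), ← q.neg_one_zpow (α := ℝ)] at this
  · have c0 : ∀ᶠ x in 𝓝 (vQ (π / 4)), 0 < x 0 :=
      continuousAt_const.eventually_lt (by fun_prop) (by simp [vQ])
    have c1 : ∀ᶠ x in 𝓝 (vQ (π / 4)), 0 < x 1 :=
      continuousAt_const.eventually_lt (by fun_prop) (by simp [vQ])
    have c3 := near_chart O 0 0 ((isOpen_Dr r).mem_nhds d0)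
    rw [← ep] at c3
    filter_upwards [c0, c1, c3] with x k0 k1 k hx
    obtain ⟨y, hy, z, rfl⟩ := k (Xi_norm h hx)
    refine ⟨y, hy, ?_⟩
    have ey : ∀ k : ℤ, y = Rt (k * l) (Rt (-(k * l)) y) := fun k => by
      rw [Rt_Rt, add_neg_cancel, Rt_zero]
    obtain ⟨k, m, hm, ⟨q, e⟩ | ⟨q, e⟩⟩ := nf_z h hx (add_pos k0 k1)
    · have e1 : m = O (gn (Rt (-(k * l)) y) z) := (rot 0 (k * l)).injective (by
        rw [← e, rot_OQ, ← ey])
      have := key _ (Rt_Dr.2 hy) z (e1 ▸ hm) (by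
        rw [← e1]
        rw [e, rot1] at k1
        simpa using k1)
      rw [gX, ey k, rt, q.neg_one_zpow, one_mul, ← this]
    · have e1 : m = O (gn (Rt (-(k * l)) y) (-z)) :=
        rf1.injective ((rot (π / 2) (k * l)).injective (by rw [← e, flip_OQ, ← ey, neg_neg]))
      have := key _ (Rt_Dr.2 hy) _ (e1 ▸ hm) (by
        rw [← e1]
        rw [e, rot0] at k0
        simpa [rf1_c] using k0)
      rw [gX, ey k, rt, q.neg_one_zpow, ← this, neg_one_mul, neg_neg]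

theorem good_rf1 (h : Ang l n) {p : E4} (hp : Good l p) : Good l (rf1 p) :=
  hp.map rf1 (fun _ => Xi_rf1 h) fun x hx => by
    rw [← rf1_rf1 x, rf1.symm_apply_apply]
    exact Xi_rf1 h hx

theorem good_rf3 (h : Ang l n) {p : E4} (hp : Good l p) : Good l (rf3 p) :=
  hp.map rf3 (fun _ => Xi_rf3 h) fun x hx => by
    rw [← rf3_rf3 x, rf3.symm_apply_apply]
    exact Xi_rf3 h hx

theorem good_rot {j k : ℤ} (e : Even (j + k)) {p : E4} (hp : Good l p) :
    Good l (rot (j * (π / 2)) (k * l) p) :=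
  hp.map _ (fun _ => Xi_rot e) fun x hx => by
    have := Xi_rot (j := -j) (k := -k) (by rw [← neg_add]; exact e.neg) hx
    convert this using 1
    rw [LinearIsometryEquiv.symm_apply_eq, rot_rot]
    simp [rot_zero]

theorem good_M (h : Ang l n) {m : E4} (hm : m ∈ leafSet l) : Good l m := by
  rcases M_cases h hm with k | k
  · refine good_of (min_opn tetS_all lfS_all h.mem) k (fun x hx => M_Xi (opn_M hx)) ?_
    obtain ⟨-, a, b⟩ := opn_tet tetS_all lfS_all h.mem k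
    have c1 : ∀ᶠ x : E4 in 𝓝 m, √2 * |x 3| < aL l * x 2 :=
      ContinuousAt.eventually_lt (by fun_prop) (by fun_prop) a
    have c2 : ∀ᶠ x : E4 in 𝓝 m, √2 * |x 1| < √2 * x 0 :=
      ContinuousAt.eventually_lt (by fun_prop) (by fun_prop) b
    filter_upwards [c1, c2] with x k1 k2 hx
    exact nf_int h hx ⟨Xi_norm h hx, k1, k2⟩
  · obtain ⟨s, t, α, β, hs, ht, i1, i2, i3, rfl⟩ := quad_cases tetS_all h.mem k
    have g0 : Good l (α • vP (l / 2) + β • vQ (π / 4)) := by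
      rcases i1.eq_or_lt with rfl | i1
      · obtain rfl : β = 1 := by nlinarith
        simpa using good_vQ h
      rcases i2.eq_or_lt with rfl | i2
      · obtain rfl : α = 1 := by nlinarith
        simpa using good_vP h
      exact good_edge h i1 i2 i3
    have g1 : Good l (α • vP (l / 2) + β • vQ t) := by
      rcases ht with rfl | rfl
      · exact g0
      · convert good_rf1 h g0 using 1
        refine ext4 ?_ ?_ ?_ ?_ <;> simp [rf1_c, vP, vQ]
    rcases hs with rfl | rfl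
    · exact g1
    · convert good_rf3 h g1 using 1
      refine ext4 ?_ ?_ ?_ ?_ <;> simp [rf3_c, vP, vQ]

theorem isMin_Xi (h : Ang l n) : IsMin (Xi l) := chartS_all.glue _ <| by
  rintro _ ⟨j, k, e, m, hm, rfl⟩
  exact good_rot e (good_M h hm)

end Pool.Agent.Lib.MP_16d934_gt.X
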