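import Pool.Agent.Lib.MP_16d934_gt.X.Base

/-! The half of the surface is planar. -/

set_option autoImplicit false

open Set Metric Filter Topology
open scoped InnerProductSpace NNReal Real

noncomputable section

namespace Pool.Agent.Lib.MP_16d934_gt.X

open ELaw

/-- the clamped height: `√2 x₁` cut off at `± |z|` -/
def gg (x : E4) : ℝ := max (-√(aa x)) (min (√2 * x 1) √(aa x))

variable {l : ℝ} {n : ℕ}

theorem polar (h : Ang l n) {m m' : E4} (hm : m ∈ opn l) (hm' : m' ∈ opn l) {c : ℝ}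
    (h2 : m 2 = c * m' 2) (h3 : m 3 = c * m' 3) : ∃ (f : ℝ → ℝ) (φ θ θ' : ℝ),
    StrictAntiOn f (Ico 0 (π / 4)) ∧ (∀ s, |s| < π / 4 → f s ∈ Ioo 0 (π / 2) ∧ f |s| = f s) ∧
    |θ| < π / 4 ∧ |θ'| < π / 4 ∧ m = pol (f θ) φ θ ∧ m' = pol (f θ') φ θ' ∧
    Real.sin (f θ) = c * Real.sin (f θ') := by
  obtain ⟨ϱ, hP, -, hc⟩ := pieceS_all _ _ _ h.leaf
  rw [tetS_all.ang.2.1] at hP hc
  obtain ⟨y, hy, rfl⟩ := hm
  obtain ⟨y', hy', rfl⟩ := hm'
  obtain ⟨⟨φ, θ⟩, hx, e⟩ := hc y hy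
  obtain ⟨⟨φ', θ'⟩, hx', e'⟩ := hc y' hy'
  simp only [rX, zero_add] at e e'
  rw [e, e'] at h2 h3 ⊢
  simp [pol] at h2 h3
  have w := hP.wlt
  have s0 : 0 < Real.sin (ϱ (φ, θ)) := Real.sin_pos_of_pos_of_lt_pi (hP.rng _ hx).1
    (by linarith [(hP.rng _ hx).2, Real.pi_pos])
  obtain rfl : φ = φ' := by
    have : Real.sin (ϱ (φ, θ)) * Real.sin (φ - φ') = 0 := by
      rw [Real.sin_sub]
      linear_combination Real.cos φ' * h3 - Real.sin φ' * h2
    exact sub_eq_zero.1 ((Real.sin_eq_zero_iff_of_lt_of_lt (by linarith [hx.1.1, hx'.1.2])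
      (by linarith [hx.1.2, hx'.1.1])).1 ((mul_eq_zero.1 this).resolve_left s0.ne'))
  have hb : ∀ s, |s| < π / 4 → (φ, s) ∈ Box (hA (aL l)) (π / 4) := fun s hs =>
    ⟨hx.1, abs_lt.1 hs⟩
  have hd : ∀ s, |s| < π / 4 → HasDerivAt (fun s => ϱ (φ, s)) (d2 ϱ (φ, s)) s := fun s hs =>
    HasFDerivAt.comp_hasDerivAt_of_eq s (hP.ana _ (hb s hs)).differentiableAt.hasFDerivAt
      ((hasDerivAt_const _ _).prodMk (hasDerivAt_id s)) rfl
  refine ⟨fun s => ϱ (φ, s), φ, θ, θ', strictAntiOn_of_deriv_neg (convex_Ico _ _)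
    (fun s hs => (hd s (by rw [abs_of_nonneg hs.1]; exact hs.2)).continuousAt.continuousWithinAt)
    fun s hs => ?_, fun s hs => ⟨hP.rng _ (hb s hs), ?_⟩, abs_lt.2 hx.2, abs_lt.2 hx'.2, rfl, rfl,
    ?_⟩
  · rw [interior_Ico] at hs
    have : |s| < π / 4 := by rw [abs_of_pos hs.1]; exact hs.2
    rw [(hd s this).deriv]
    exact hP.m2 _ (hb s this) hs.1
  · rcases abs_choice s with k | k <;> rw [k]
    exact hP.ev2 (φ, s)
  · have : 0 < Real.cos φ := Real.cos_pos_of_mem_Ioo ⟨by linarith [hx.1.1], by linarith [hx.1.2]⟩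
    exact mul_right_cancel₀ this.ne' (by linarith)

/-- two points of the open leaf over one ray with proportional heights `x₁` -/
theorem opn_inj1 (h : Ang l n) {m m' : E4} (hm : m ∈ opn l) (hm' : m' ∈ opn l) {c : ℝ}
    (h2 : m 2 = c * m' 2) (h3 : m 3 = c * m' 3) (h1 : m 1 = c * m' 1) : m = m' := by
  obtain ⟨f, φ, θ, θ', hf, hr, t, t', rfl, rfl, e⟩ := polar h hm hm' h2 h3
  simp [pol] at h1
  have pp := Real.pi_pos
  have sp : ∀ s, |s| < π / 4 → 0 < Real.sin (f s) ∧ 0 < Real.cos (f s) := fun s hs =>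
    ⟨Real.sin_pos_of_pos_of_lt_pi (hr s hs).1.1 (by linarith [(hr s hs).1.2]),
      Real.cos_pos_of_mem_Ioo ⟨by linarith [(hr s hs).1.1], (hr s hs).1.2⟩⟩
  have mono : ∀ s s', |s| < π / 4 → |s'| < π / 4 → |s| < |s'| →
      Real.cos (f s) * |Real.sin s| * Real.sin (f s')
        < Real.cos (f s') * |Real.sin s'| * Real.sin (f s) := fun s s' hs hs' k => by
    have k1 : f s' < f s := by
      rw [← (hr s hs).2, ← (hr s' hs').2]
      exact hf ⟨abs_nonneg _, hs⟩ ⟨abs_nonneg _, hs'⟩ k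
    have a := (hr s hs).1
    have a' := (hr s' hs').1
    have k2 := Real.cos_lt_cos_of_nonneg_of_le_pi a'.1.le (by linarith [a.2]) k1
    have k3 := Real.sin_lt_sin_of_lt_of_le_pi_div_two (by linarith [a'.1]) a.2.le k1
    have k4 := Real.sin_lt_sin_of_lt_of_le_pi_div_two (by linarith [abs_nonneg s])
      (by linarith) k
    rw [← Real.abs_sin_eq_sin_abs_of_abs_le_pi (by linarith),
      ← Real.abs_sin_eq_sin_abs_of_abs_le_pi (by linarith)] at k4
    exact mul_lt_mul'' (mul_lt_mul'' k2 k4 (sp s hs).2.le (abs_nonneg _)) k3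
      (mul_nonneg (sp s hs).2.le (abs_nonneg _)) (sp s' hs').1.le
  have e1 : Real.cos (f θ) * Real.sin θ * Real.sin (f θ')
      = Real.cos (f θ') * Real.sin θ' * Real.sin (f θ) := by rw [h1, e]; ring
  have e2 := congrArg abs e1
  simp only [abs_mul, abs_of_pos (sp θ t).1, abs_of_pos (sp θ t).2, abs_of_pos (sp θ' t').1,
    abs_of_pos (sp θ' t').2] at e2
  have e3 : |θ| = |θ'| := le_antisymm (not_lt.1 fun k => (mono _ _ t' t k).ne' e2)
    (not_lt.1 fun k => (mono _ _ t t' k).ne e2)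
  have e4 : f θ = f θ' := by rw [← (hr θ t).2, e3, (hr θ' t').2]
  rw [e4] at e1
  have e5 := mul_left_cancel₀ (sp θ' t').2.ne' (mul_right_cancel₀ (sp θ' t').1.ne' e1)
  rw [e4, Real.injOn_sin ⟨by linarith [(abs_lt.1 t).1], by linarith [(abs_lt.1 t).2]⟩
    ⟨by linarith [(abs_lt.1 t').1], by linarith [(abs_lt.1 t').2]⟩ e5]

/-- two points of the half leaf with the same second complex coordinate -/
theorem opn_inj2 (h : Ang l n) {m m' : E4} (hm : m ∈ opn l) (hm' : m' ∈ opn l)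
    (h2 : m 2 = m' 2) (h3 : m 3 = m' 3) (h1 : 0 ≤ m 1) (h1' : 0 ≤ m' 1) : m = m' := by
  obtain ⟨f, φ, θ, θ', hf, hr, t, t', rfl, rfl, e⟩ := polar h hm hm' (c := 1)
    (by rwa [one_mul]) (by rwa [one_mul])
  have pp := Real.pi_pos
  have pos : ∀ s, |s| < π / 4 → 0 ≤ pol (f s) φ s 1 → s ∈ Ico 0 (π / 4) := fun s hs k => by
    refine ⟨not_lt.1 fun k' => ?_, (abs_lt.1 hs).2⟩
    have a : 0 < Real.cos (f s) :=
      Real.cos_pos_of_mem_Ioo ⟨by linarith [(hr s hs).1.1], (hr s hs).1.2⟩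
    have b := Real.sin_neg_of_neg_of_neg_pi_lt k' (by linarith [(abs_lt.1 hs).1])
    simp [pol] at k
    nlinarith
  rw [one_mul] at e
  have a := (hr θ t).1
  have a' := (hr θ' t').1
  rw [hf.injOn (pos _ t h1) (pos _ t' h1') (Real.injOn_sin ⟨by linarith [a.1], a.2.le⟩
    ⟨by linarith [a'.1], a'.2.le⟩ e)]

/-! ### The clamped height -/

theorem gg_in {x : E4} (h : |x 1| ≤ |x 0|) : gg x = √2 * x 1 := by
  have : |√2 * x 1| ≤ √(aa x) := Real.abs_le_sqrt (by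
    rw [mul_pow, Real.sq_sqrt (by norm_num), aa]
    nlinarith [sq_le_sq.2 h])
  rw [gg, min_eq_left (abs_le.1 this).2, max_eq_right (abs_le.1 this).1]

theorem sqrt_aa_le {x : E4} (h : |x 0| ≤ |x 1|) : √(aa x) ≤ √2 * |x 1| :=
  Real.sqrt_le_iff.2 ⟨by positivity, by
    rw [mul_pow, Real.sq_sqrt (by norm_num), aa, sq_abs]
    nlinarith [sq_le_sq.2 h]⟩

theorem gg_top {x : E4} (h : |x 0| ≤ x 1) : gg x = √(aa x) := by
  have h0 := (abs_nonneg _).trans h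
  have := sqrt_aa_le (x := x) (by rwa [abs_of_nonneg h0])
  rw [abs_of_nonneg h0] at this
  rw [gg, min_eq_right this, max_eq_right (by linarith [Real.sqrt_nonneg (aa x)])]

theorem gg_bot {x : E4} (h : |x 0| ≤ -x 1) : gg x = -√(aa x) := by
  have h0 : x 1 ≤ 0 := by linarith [abs_nonneg (x 0)]
  have := sqrt_aa_le (x := x) (by rwa [abs_of_nonpos h0])
  rw [abs_of_nonpos h0] at this
  exact max_eq_left ((min_le_left _ _).trans (by linarith))

theorem cont_gg : Continuous gg := by unfold gg aa; fun_prop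

theorem quarter (j : ℤ) (φ : ℝ) (m : E4) :
    (Even j ∧ ((rot (j * (π / 2)) φ m 0 = m 0 ∧ rot (j * (π / 2)) φ m 1 = m 1) ∨
      (rot (j * (π / 2)) φ m 0 = -m 0 ∧ rot (j * (π / 2)) φ m 1 = -m 1))) ∨
    (Odd j ∧ ((rot (j * (π / 2)) φ m 0 = -m 1 ∧ rot (j * (π / 2)) φ m 1 = m 0) ∨
      (rot (j * (π / 2)) φ m 0 = m 1 ∧ rot (j * (π / 2)) φ m 1 = -m 0))) := by
  have key : ∀ (i r : ℤ), Real.cos ((4 * i + r : ℤ) * (π / 2)) = Real.cos (r * (π / 2)) ∧
      Real.sin ((4 * i + r : ℤ) * (π / 2)) = Real.sin (r * (π / 2)) := fun i r => by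
    rw [show ((4 * i + r : ℤ) : ℝ) * (π / 2) = r * (π / 2) + i * (2 * π) by push_cast; ring]
    exact ⟨Real.cos_add_int_mul_two_pi _ _, Real.sin_add_int_mul_two_pi _ _⟩
  obtain ⟨i, rfl | rfl | rfl | rfl⟩ : ∃ i : ℤ, j = 4 * i + 0 ∨ j = 4 * i + 2 ∨ j = 4 * i + 1 ∨
    j = 4 * i + -1 := ⟨(j + 1) / 4, by omega⟩ <;> rw [rot0, rot1, (key _ _).1, (key _ _).2]
  · exact Or.inl ⟨⟨2 * i, by ring⟩, Or.inl (by simp)⟩
  · refine Or.inl ⟨⟨2 * i + 1, by ring⟩, Or.inr ?_⟩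
    rw [show ((2 : ℤ) : ℝ) * (π / 2) = π by push_cast; ring]
    simp
  · exact Or.inr ⟨⟨2 * i, by ring⟩, Or.inl (by simp)⟩
  · exact Or.inr ⟨⟨2 * i - 1, by ring⟩, Or.inr (by simp)⟩

theorem opn_z (h : Ang l n) {m : E4} (hm : m ∈ opn l) : |m 1| < m 0 :=
  lt_of_mul_lt_mul_left (opn_tet tetS_all lfS_all h.mem hm).2.2 s2_pos.le

theorem opn_w (h : Ang l n) {m : E4} (hm : m ∈ opn l) : 0 < m 2 :=
  (mul_pos_iff_of_pos_left h.leaf.apos).1
    (lt_of_le_of_lt (by positivity) (opn_tet tetS_all lfS_all h.mem hm).2.1)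

theorem quad_diag {m : E4} (hm : m ∈ Quad (aL l) √2) (j : ℤ) (φ : ℝ) :
    |rot (j * (π / 2)) φ m 1| = |rot (j * (π / 2)) φ m 0| := by
  have e := mul_left_cancel₀ s2_pos.ne' hm.2.2
  have e' : |m 0| = |m 1| := by rw [← e, abs_abs]
  rcases quarter j φ m with ⟨-, k | k⟩ | ⟨-, k | k⟩ <;> simp [k.1, k.2, e']

/-- a point of the surface over the same ray as a point of an open leaf -/
theorem cross (h : Ang l n) {m m' : E4} (hm : m ∈ opn l) (hm' : m' ∈ leafSet l) {θ θ' c : ℝ}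
    {k k' : ℤ} (hc : 0 < c) (h2 : rot θ (k * l) m 2 = c * rot θ' (k' * l) m' 2)
    (h3 : rot θ (k * l) m 3 = c * rot θ' (k' * l) m' 3) :
    Even (k' - k) ∧ m 2 = c * m' 2 ∧ m 3 = c * m' 3 ∧ m' ∈ opn l := by
  have a2 : m 2 = c * rot 0 ((k' - k : ℤ) * l) m' 2 := by
    rw [rot2] at h2 h2 ⊢
    rw [rot3] at h3 h3
    rw [Int.cast_sub, sub_mul, Real.cos_sub, Real.sin_sub]
    linear_combination Real.cos (k * l) * h2 + Real.sin (k * l) * h3
      - m 2 * Real.sin_sq_add_cos_sq (k * l)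
  have a3 : m 3 = c * rot 0 ((k' - k : ℤ) * l) m' 3 := by
    rw [rot2] at h2 h2
    rw [rot3] at h3 h3 ⊢
    rw [Int.cast_sub, sub_mul, Real.cos_sub, Real.sin_sub]
    linear_combination Real.cos (k * l) * h3 - Real.sin (k * l) * h2
      - m 3 * Real.sin_sq_add_cos_sq (k * l)
  have t := (opn_tet tetS_all lfS_all h.mem hm).2.1
  rw [a2, a3, abs_mul, abs_of_pos hc, mul_left_comm, mul_left_comm (aL l)] at t
  replace t := lt_of_mul_lt_mul_left t hc.le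
  obtain ⟨i, hi⟩ := w0 h (M_tet h hm') t
  have e := rot_red h 0 0 0 i m'
  simp only [add_zero, Int.cast_zero, zero_mul, mul_zero, rot_zero] at e
  rw [hi, e] at a2 a3 t
  exact ⟨⟨n * i, by rw [hi]; ring⟩, a2, a3,
    (M_cases h hm').resolve_right fun k => t.ne k.2.1⟩

theorem c_one {c A A' x2 x3 y2 y3 : ℝ} (hc : 0 < c) (h : A ^ 2 + x2 ^ 2 + x3 ^ 2 = 1)
    (h' : A' ^ 2 + y2 ^ 2 + y3 ^ 2 = 1) (h1 : A = c * A') (h2 : x2 = c * y2) (h3 : x3 = c * y3) :
    c = 1 := by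
  have : c ^ 2 = 1 := by
    rw [h1, h2, h3] at h
    linear_combination h - c ^ 2 * h'
  nlinarith

theorem aa_norm {x : E4} (hx : ‖x‖ = 1) : √(aa x) ^ 2 + x 2 ^ 2 + x 3 ^ 2 = 1 := by
  rw [Real.sq_sqrt (by unfold aa; positivity), aa]
  exact EBar.sq4 hx

theorem aa_pos {x : E4} (h : x 1 ≠ 0) : 0 < √(aa x) :=
  Real.sqrt_pos.2 (by unfold aa; positivity)

/-- the ray through `(gg x, x₂, x₃)` determines the point of the half -/
theorem half_inj (h : Ang l n) {x x' : E4} (hx : x ∈ Xi l) (hx' : x' ∈ Xi l) (h0 : 0 ≤ x 0)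
    (h0' : 0 ≤ x' 0) {c : ℝ} (hc : 0 < c) (h1 : gg x = c * gg x') (h2 : x 2 = c * x' 2)
    (h3 : x 3 = c * x' 3) : x = x' := by
  have n1 := Xi_norm h hx
  have n2 := Xi_norm h hx'
  obtain ⟨j, k, e, m, hm, ex⟩ := hx
  obtain ⟨j', k', e', m', hm', ex'⟩ := hx'
  have fin : c = 1 → x 0 = x' 0 → x 1 = x' 1 → x = x' := fun c1 a b =>
    ext4 a b (by rw [h2, c1, one_mul]) (by rw [h3, c1, one_mul])
  by_cases ho : m ∈ opn l
  swap
  · have q := (M_cases h hm).resolve_left ho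
    have q' : m' ∈ Quad (aL l) √2 := (M_cases h hm').resolve_left fun k => ho
      (cross h k hm (inv_pos.2 hc) (by rw [← ex, ← ex', h2, inv_mul_cancel_left₀ hc.ne'])
        (by rw [← ex, ← ex', h3, inv_mul_cancel_left₀ hc.ne'])).2.2.2
    have d := quad_diag q j (k * l)
    have d' := quad_diag q' j' (k' * l)
    rw [← ex] at d
    rw [← ex'] at d'
    rw [gg_in d.le, gg_in d'.le] at h1
    have s : √2 ^ 2 = (2 : ℝ) := Real.sq_sqrt (by norm_num)
    have c1 := c_one hc (by rw [mul_pow, s]; linarith [EBar.sq4 n1, sq_eq_sq_iff_abs_eq_abs _ _ |>.2 d])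
      (by rw [mul_pow, s]; linarith [EBar.sq4 n2, sq_eq_sq_iff_abs_eq_abs _ _ |>.2 d']) h1 h2 h3
    rw [c1, one_mul] at h1
    have b := mul_left_cancel₀ s2_pos.ne' h1
    exact fin c1 (by rw [← abs_of_nonneg h0, ← abs_of_nonneg h0', ← d, ← d', b]) b
  obtain ⟨ek, a2, a3, ho'⟩ := cross h ho hm' hc (by rwa [← ex, ← ex']) (by rwa [← ex, ← ex'])
  have z := opn_z h ho
  have z' := opn_z h ho'
  have p := (abs_nonneg _).trans_lt z
  have p' := (abs_nonneg _).trans_lt z'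
  have par : Even j ↔ Even j' := by
    rw [Int.even_add] at e e'
    rw [Int.even_sub] at ek
    rw [e, e', ek]
  have u := quarter j (k * l) m
  have u' := quarter j' (k' * l) m'
  rw [← ex] at u
  rw [← ex'] at u'
  rcases u with ⟨q, u | u⟩ | ⟨q, u⟩
  · rcases u' with ⟨-, u' | u'⟩ | ⟨q', -⟩
    · rw [gg_in (by rw [u.1, u.2, abs_of_pos p]; exact z.le),
        gg_in (by rw [u'.1, u'.2, abs_of_pos p']; exact z'.le), u.2, u'.2, mul_left_comm] at h1
      obtain rfl := opn_inj1 h ho ho' a2 a3 (mul_left_cancel₀ s2_pos.ne' h1)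
      exact fin (by nlinarith [opn_w h ho]) (u.1.trans u'.1.symm) (u.2.trans u'.2.symm)
    · linarith [u'.1]
    · exact absurd (par.1 q) (Int.not_even_iff_odd.2 q')
  · linarith [u.1]
  rcases u' with ⟨q', -⟩ | ⟨-, u'⟩
  · exact absurd (par.2 q') (Int.not_even_iff_odd.2 q)
  rcases u with u | u <;> rcases u' with u' | u'
  · rw [gg_top (by rw [u.1, u.2, abs_neg]; exact z.le),
      gg_top (by rw [u'.1, u'.2, abs_neg]; exact z'.le)] at h1
    obtain rfl := c_one hc (aa_norm n1) (aa_norm n2) h1 h2 h3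
    obtain rfl := rf1.injective (opn_inj2 h (rf1_opn h ho) (rf1_opn h ho') (by simpa [rf1_c] using a2)
      (by simpa [rf1_c] using a3) (by rw [(rf1_c m).2.1]; linarith [u.1])
      (by rw [(rf1_c m').2.1]; linarith [u'.1]))
    exact fin rfl (u.1.trans u'.1.symm) (u.2.trans u'.2.symm)
  · rw [gg_top (by rw [u.1, u.2, abs_neg]; exact z.le),
      gg_bot (by rw [u'.1, u'.2, neg_neg]; exact z'.le)] at h1
    have := aa_pos (x := x) (by rw [u.2]; exact p.ne')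
    nlinarith [Real.sqrt_nonneg (aa x')]
  · rw [gg_bot (by rw [u.1, u.2, neg_neg]; exact z.le),
      gg_top (by rw [u'.1, u'.2, abs_neg]; exact z'.le)] at h1
    have := aa_pos (x := x) (by rw [u.2]; exact neg_ne_zero.2 p.ne')
    nlinarith [Real.sqrt_nonneg (aa x')]
  · rw [gg_bot (by rw [u.1, u.2, neg_neg]; exact z.le),
      gg_bot (by rw [u'.1, u'.2, neg_neg]; exact z'.le), mul_neg, neg_inj] at h1
    obtain rfl := c_one hc (aa_norm n1) (aa_norm n2) h1 h2 h3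
    obtain rfl := opn_inj2 h ho ho' (by simpa using a2) (by simpa using a3) (u.1 ▸ h0) (u'.1 ▸ h0')
    exact fin rfl (u.1.trans u'.1.symm) (u.2.trans u'.2.symm)

theorem gg_ne (h : Ang l n) {x : E4} (hx : x ∈ Xi l) : 0 < gg x ^ 2 + x 2 ^ 2 + x 3 ^ 2 := by
  have n1 := EBar.sq4 (Xi_norm h hx)
  obtain ⟨j, k, -, m, hm, ex⟩ := hx
  rcases M_cases h hm with q | q
  · have : x 2 ^ 2 + x 3 ^ 2 = m 2 ^ 2 + m 3 ^ 2 := by
      rw [ex, rot2, rot3]
      linear_combination (m 2 ^ 2 + m 3 ^ 2) * Real.sin_sq_add_cos_sq (k * l)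
    nlinarith [opn_w h q, sq_nonneg (gg x), sq_nonneg (m 3)]
  · have d := quad_diag q j (k * l)
    rw [← ex] at d
    rw [gg_in d.le, mul_pow, Real.sq_sqrt (by norm_num)]
    linarith [(sq_eq_sq_iff_abs_eq_abs _ _).2 d]

/-- the direction `(0, cos l, sin l)` is missed -/
theorem gg_miss (h : Ang l n) {x : E4} (hx : x ∈ Xi l) (h1 : gg x = 0) {c : ℝ} (hc : 0 < c)
    (h2 : x 2 = c * Real.cos l) (h3 : x 3 = c * Real.sin l) : False := by
  obtain ⟨j, k, e, m, hm, ex⟩ := hx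
  have h0 : gX O0 (lf l) 0 ∈ opn l := ⟨0, EPsi.zero_mem _ _, rfl⟩
  set m₀ := gX O0 (lf l) 0 with hm₀
  have b3 : m₀ 3 = 0 := by rw [hm₀, gX, (tetS_all.coord _ _).2.2.2]; simp
  have b2 := opn_w h h0
  obtain ⟨ek, -, -, ho⟩ := cross h h0 hm (θ := 0) (θ' := j * (π / 2)) (k := 1) (k' := k)
    (div_pos b2 hc) (by rw [← ex, h2, rot2, b3]; field_simp; simp [mul_comm])
    (by rw [← ex, h3, rot3, b3]; field_simp; simp [mul_comm])
  have z := opn_z h ho
  have p := (abs_nonneg _).trans_lt z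
  have u := quarter j (k * l) m
  rw [← ex] at u
  rcases u with ⟨q, -⟩ | ⟨-, u | u⟩
  · rw [Int.even_add] at e
    exact Int.not_even_one ((Int.even_sub.1 ek).1 (e.1 q))
  · rw [gg_top (by rw [u.1, u.2, abs_neg]; exact z.le)] at h1
    exact (aa_pos (x := x) (by rw [u.2]; exact p.ne')).ne' h1
  · rw [gg_bot (by rw [u.1, u.2, neg_neg]; exact z.le), neg_eq_zero] at h1
    exact (aa_pos (x := x) (by rw [u.2]; exact neg_ne_zero.2 p.ne')).ne' h1

end Pool.Agent.Lib.MP_16d934_gt.X
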