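import Pool.Agent.Lib.MP_16d934_gt.X.Min
import Pool.Agent.Lib.MP_16d934_gt.X.Plan
import Pool.Agent.Lib.MP_16d934_gt.X.Betti

/-! The union of the rotated leaves is a closed surface of the right genus with type-0 symmetry. -/

set_option autoImplicit false

open Set Metric Filter Topology
open scoped InnerProductSpace NNReal Real

noncomputable section

namespace Pool.Agent.Lib.MP_16d934_gt.X

open ELaw

variable {l : ℝ} {n : ℕ}

theorem vP_M (h : Ang l n) {s : ℝ} (hs : s = l / 2 ∨ s = -(l / 2)) : vP s ∈ leafSet l := by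
  simpa using arc_M h hs (Or.inl rfl) zero_le_one le_rfl (by norm_num)

theorem vQ_M (h : Ang l n) {t : ℝ} (ht : t = π / 4 ∨ t = -(π / 4)) : vQ t ∈ leafSet l := by
  simpa using arc_M h (Or.inl rfl) ht le_rfl zero_le_one (by norm_num)

theorem hf_eq (γ : ℕ) : hf γ = π / (γ + 1) / 2 := by rw [hf]; field_simp

theorem cpt_Xi {γ : ℕ} (hγ : 1 ≤ γ) : IsCompact (Xi (π / (γ + 1))) := by
  have h := ang_gam hγ
  obtain ⟨G, g1, -, g3⟩ := orb_fin invS_all (M := leafSet (π / (γ + 1))) (hf_eq γ)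
    (Nat.succ_pos γ) h.eq
  rw [← orbit_eq hγ, g3]
  exact g1.isCompact_biUnion fun g _ => (tetS_all.cpt _ _ _ h.leaf).2.1.image g.continuous

theorem conn_Xi {γ : ℕ} (hγ : 1 ≤ γ) : IsConnected (Xi (π / (γ + 1))) := by
  have h := ang_gam hγ
  have e := orbit_eq hγ
  have hh := hf_eq γ
  set l := π / (γ + 1)
  have pre : IsPreconnected (leafSet l) := by
    rw [← clo_opn tetS_all lfS_all h.mem]
    exact (tetS_all.cpt _ _ _ h.leaf).2.2.2.2.1.closure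
  have hp := vP_M h (Or.inl rfl)
  have hM : leafSet l ⊆ connectedComponentIn (Xi l) (vP (l / 2)) :=
    pre.subset_connectedComponentIn hp fun _ => M_Xi
  have : Xi l = connectedComponentIn (Xi l) (vP (l / 2)) := by
    refine Subset.antisymm (fun x hx => ?_) (connectedComponentIn_subset _ _)
    rw [← e] at hx
    refine orb_ind hh (P := fun x => x ∈ connectedComponentIn (Xi l) (vP (l / 2))) hM
      (fun s t x hs ht _ ih => ?_) hx
    have hv := hM (vP_M h hs)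
    rw [connectedComponentIn_eq hv]
    refine (isPreconnected_connectedComponentIn.image (gR s t)
      (gR s t).continuous.continuousOn).subset_connectedComponentIn
      ⟨_, hv, by rw [gR_vP, show 2 * s - s = s by ring]⟩ ?_ ⟨x, ih, rfl⟩
    rintro _ ⟨y, hy, rfl⟩
    exact Xi_gR h hs ht (connectedComponentIn_subset _ _ hy)
  rw [this]
  exact isConnected_connectedComponentIn_iff.2 (M_Xi hp)

theorem ngeo_Xi (h : Ang l n) (v : E4) (hv : v ≠ 0) : ∃ x ∈ Xi l, ⟪v, x⟫_ℝ ≠ 0 := by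
  by_contra hn
  push Not at hn
  have a1 := hn _ (M_Xi (vP_M h (Or.inl rfl)))
  have a2 := hn _ (M_Xi (vP_M h (Or.inr rfl)))
  have a3 := hn _ (M_Xi (vQ_M h (Or.inl rfl)))
  have a4 := hn _ (M_Xi (vQ_M h (Or.inr rfl)))
  obtain ⟨t1, t2⟩ := trig h.mem
  simp only [inner4] at a1 a2 a3 a4
  simp [vP, vQ] at a1 a2 a3 a4
  have s := s2_pos
  refine hv (ext4 ?_ ?_ ?_ ?_)
  · exact mul_right_cancel₀ s.ne' (show v 0 * √2 = 0 * √2 by linarith)
  · exact mul_right_cancel₀ s.ne' (show v 1 * √2 = 0 * √2 by linarith)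
  · exact mul_right_cancel₀ t2.ne' (show v 2 * _ = 0 * _ by linarith)
  · exact mul_right_cancel₀ t1.ne' (show v 3 * _ = 0 * _ by linarith)

theorem sym_Xi {γ : ℕ} (hγ : 1 ≤ γ) : Sym (Xi (π / (γ + 1))) :=
  ⟨isMin_Xi (ang_gam hγ), cpt_Xi hγ, conn_Xi hγ, fun _ => Xi_rf0 (ang_gam hγ),
    fun _ => Xi_rf1 (ang_gam hγ), ngeo_Xi (ang_gam hγ)⟩

/-- the direction that describes the quotient by the first reflection -/
def Vv (x : E4) : DNorm.E3 := !₂[gg x, x 2, x 3]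

/-- the quotient map -/
def Fq (x : E4) : DNorm.E3 := ‖Vv x‖⁻¹ • Vv x

theorem cont_Vv : Continuous Vv := by
  have := cont_gg
  unfold Vv
  fun_prop

theorem Vv_pos (h : Ang l n) {x : E4} (hx : x ∈ Xi l) : 0 < ‖Vv x‖ :=
  norm_pos_iff.2 fun e => by
    have a := gg_ne h hx
    have a0 : gg x = 0 := congrArg (fun v : DNorm.E3 => v 0) e
    have a1 : x 2 = 0 := congrArg (fun v : DNorm.E3 => v 1) e
    have a2 : x 3 = 0 := congrArg (fun v : DNorm.E3 => v 2) e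
    simp [a0, a1, a2] at a

theorem Fq_rf0 (x : E4) : Fq (rf0 x) = Fq x := by simp [Fq, Vv, gg, aa, rf0_c]

theorem Fq_half (h : Ang l n) {x y : E4} (hx : x ∈ Xi l) (hy : y ∈ Xi l) (h0 : 0 ≤ x 0)
    (h0' : 0 ≤ y 0) (e : Fq x = Fq y) : x = y := by
  have a := Vv_pos h hx
  have b := Vv_pos h hy
  have k : Vv x = (‖Vv x‖ * ‖Vv y‖⁻¹) • Vv y := by
    rw [mul_smul, ← Fq, ← e, Fq, smul_inv_smul₀ a.ne']
  exact half_inj h hx hy h0 h0' (mul_pos a (inv_pos.2 b))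
    (congrArg (fun v : DNorm.E3 => v 0) k) (congrArg (fun v : DNorm.E3 => v 1) k)
    (congrArg (fun v : DNorm.E3 => v 2) k)

theorem genus_Xi (h : Ang l n) : ContinuousOn Fq (Xi l) ∧ (∀ x ∈ Xi l, ‖Fq x‖ = 1) ∧
    ∀ x ∈ Xi l, ∀ y ∈ Xi l, (Fq x = Fq y ↔ y = x ∨ y = rf0 x) := by
  refine ⟨(cont_Vv.norm.continuousOn.inv₀ fun x hx => (Vv_pos h hx).ne').smul
    cont_Vv.continuousOn, fun x hx => ?_, fun x hx y hy => ⟨fun e => ?_, ?_⟩⟩
  · rw [Fq, norm_smul, norm_inv, norm_norm, inv_mul_cancel₀ (Vv_pos h hx).ne']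
  · have neg : ∀ z : E4, z 0 ≤ 0 → 0 ≤ rf0 z 0 := fun z hz => by rw [(rf0_c z).1]; linarith
    rcases le_total 0 (x 0) with a | a <;> rcases le_total 0 (y 0) with b | b
    · exact Or.inl (Fq_half h hx hy a b e).symm
    · rw [Fq_half h hx (Xi_rf0 h hy) a (neg y b) (by rwa [Fq_rf0]), rf0_rf0]
      exact Or.inr rfl
    · exact Or.inr (Fq_half h (Xi_rf0 h hx) hy (neg x a) b (by rwa [Fq_rf0])).symm
    · exact Or.inl (rf0.injective (Fq_half h (Xi_rf0 h hx) (Xi_rf0 h hy) (neg x a) (neg y b)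
        (by rwa [Fq_rf0, Fq_rf0]))).symm
  · rintro (rfl | rfl)
    exacts [rfl, (Fq_rf0 x).symm]

theorem oval_Xi (h : Ang l n) {x : E4} (hx : x ∈ Xi l) (h0 : x 0 = 0) :
    rf1 x ∈ connectedComponentIn (Xi l ∩ {y | y 0 = 0}) x := by
  have hx' : x ∈ Xi l ∩ {y | y 0 = 0} := ⟨hx, h0⟩
  obtain ⟨j, k, e, m, hm, ex⟩ := hx
  have u := quarter j (k * l) m
  rw [← ex] at u
  rcases u with ⟨-, u⟩ | ⟨q, u⟩
  · have t := tet_z (M_tet h hm)
    have m0 : m 0 = 0 := by rcases u with u | u <;> linarith [u.1]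
    have m1 : m 1 = 0 := abs_nonpos_iff.1 (m0 ▸ t)
    rw [DQc.rf1_fix (by rcases u with u | u <;> simp [u.2, m1])]
    exact mem_connectedComponentIn hx'
  have m1 : m 1 = 0 := by rcases u with u | u <;> linarith [u.1]
  obtain ⟨y, hy, rfl⟩ := hm
  have hu := h.leaf
  have c1 : ∀ y : P2, gX O0 (lf l) y 1 = y.2 / rho y (lf l y) := fun y => (tetS_all.coord _ _).2.1
  have y2 : y.2 = 0 := by
    rw [c1] at m1
    exact (div_eq_zero_iff.1 m1).resolve_right (EWedge.rho_pos _ _).ne'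
  set a := aL l
  have ha : 0 < a := hu.apos
  have hin : ∀ s ∈ Icc (-a) a, ((s, 0) : P2) ∈ Rh a √2 := fun s hs => by
    change |s| / a + |(0 : ℝ)| / √2 ≤ 1
    rw [abs_zero, zero_div, add_zero]
    exact div_le_one_of_le₀ (abs_le.2 hs) ha.le
  set c : ℝ → E4 := fun s => rot (j * (π / 2)) (k * l) (gX O0 (lf l) (s, 0)) with hc
  have cc : ContinuousOn c (Icc (-a) a) := (rot _ _).continuous.comp_continuousOn
    ((tetS_all.cpt _ _ _ hu).1.comp (by fun_prop) hin)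
  have pc := isPreconnected_Icc.image c cc
  have cs : c '' Icc (-a) a ⊆ Xi l ∩ {y | y 0 = 0} := by
    rintro _ ⟨s, hs, rfl⟩
    refine ⟨Xi_rot e (M_Xi ⟨_, hin s hs, rfl⟩), ?_⟩
    rcases quarter j (k * l) (gX O0 (lf l) (s, 0)) with ⟨q', -⟩ | ⟨-, w | w⟩
    · exact absurd q' (Int.not_even_iff_odd.2 q)
    · simp [hc, w.1, c1]
    · simp [hc, w.1, c1]
  have xs : x ∈ c '' Icc (-a) a := by
    refine ⟨y.1, abs_le.1 ?_, by rw [ex, hc, ← y2]⟩
    have : |y.1| / a + |y.2| / √2 ≤ 1 := hy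
    rwa [y2, abs_zero, zero_div, add_zero, div_le_one ha] at this
  have fx : rf1 (c a) = c a := DQc.rf1_fix (by
    have z := invS_all.gams.1 (j * (π / 2)) (k * l) (gX O0 (lf l) (a, 0))
    rw [EPsi.aaP tetS_all hu] at z
    have z' : c a 0 ^ 2 + c a 1 ^ 2 = 0 := z
    nlinarith [sq_nonneg (c a 0), sq_nonneg (c a 1)])
  have am : c a ∈ c '' Icc (-a) a := ⟨a, ⟨by linarith, le_rfl⟩, rfl⟩
  refine (pc.union (c a) am (show c a ∈ rf1 '' _ from ⟨_, am, fx⟩)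
    (pc.image rf1 rf1.continuous.continuousOn)).subset_connectedComponentIn (Or.inl xs)
    (union_subset cs ?_) (Or.inr ⟨x, xs, rfl⟩)
  rintro _ ⟨z, hz, rfl⟩
  exact ⟨Xi_rf1 h (cs hz).1, (rf1_c z).1.trans (cs hz).2⟩

theorem closed_Xi {γ : ℕ} (hγ : 1 ≤ γ) : ClosedMin γ (Xi (π / (γ + 1))) := by
  have h := ang_gam hγ
  have hs := sym_Xi hγ
  obtain ⟨g1, g2, g3⟩ := genus_Xi h
  obtain ⟨H, m, t, hst⟩ := starS_all _ (oneS_all _ ⟨hs, DNorm.planar touchS_all hs g1 g2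
    fun x hx y hy => (g3 x hx y hy).1, fun x => oval_Xi h, DNorm.mirror hs⟩)
  obtain ⟨γ', -, e, -, hc⟩ := orbS_all _ hs.minimal hs.cpt hs.conn _ h.mem fun _ => M_Xi
  obtain rfl : γ = γ' := by
    have pp := Real.pi_pos
    have : (γ : ℝ) = γ' := by
      field_simp at e
      linarith
    exact_mod_cast this
  have := hst.cnt
  have b := betti_star hst (fun x hx => ⟨hs.r0 x hx, hs.r1 x hx⟩) (by omega)
  exact ⟨hs.minimal, hs.cpt, hs.conn, by omega⟩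

theorem sep_of {S : Set E4} {r : E4 → E4} {i : Fin 4} (r1 : ∀ x, r x i = -x i)
    (r2 : ∀ x : E4, x i = 0 → r x = x) {p : E4} (hp : p ∈ S) (hq : r p ∈ S) (h0 : 0 < p i) :
    Spec.Sep S r := fun hc => by
  have nf : ∀ x : E4, x i ≠ 0 → x ∉ Spec.Fix r := fun x hx e => hx (by
    have := r1 x
    rw [show r x = x from e] at this
    linarith)
  have hq0 : r p i < 0 := by rw [r1]; linarith
  obtain ⟨z, hz, e⟩ := hc.intermediate_value (f := fun x : E4 => x i) ⟨hq, nf _ hq0.ne⟩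
    ⟨hp, nf _ h0.ne'⟩ (by fun_prop) ⟨hq0.le, h0.le⟩
  exact hz.2 (r2 z e)

theorem img_eq {S : Set E4} {r : E4 → E4} (h1 : ∀ x, r (r x) = x) (h2 : ∀ x ∈ S, r x ∈ S) :
    r '' S = S :=
  Subset.antisymm (by rintro _ ⟨x, hx, rfl⟩; exact h2 x hx) fun x hx => ⟨_, h2 x hx, h1 x⟩

theorem type0_Xi (h : Ang l n) : Spec.Type0 (Xi l) rf0 rf1 := by
  have hp := M_Xi (vQ_M h (Or.inl rfl))
  have p0 : 0 < vQ (π / 4) 0 := by simp [vQ]
  have p1 : 0 < vQ (π / 4) 1 := by simp [vQ]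
  have fx : Spec.Fix rf0 = {y | y 0 = 0} := Set.ext fun x => DNorm.rf0_fix
  refine ⟨isO4_iso _, isO4_iso _, rf0_rf0, rf1_rf1, fun x => ?_, img_eq rf0_rf0 fun _ => Xi_rf0 h,
    img_eq rf1_rf1 fun _ => Xi_rf1 h, ⟨_, hp, fun e => ?_⟩, ⟨_, hp, fun e => ?_⟩,
    ⟨_, hp, fun e => ?_⟩, Or.inl ⟨sep_of (fun x => (rf0_c x).1) (fun x => DNorm.rf0_fix.2) hp
      (Xi_rf0 h hp) p0, sep_of (fun x => (rf1_c x).2.1) (fun x => DQc.rf1_fix) hp
      (Xi_rf1 h hp) p1⟩, ⟨Fq, genus_Xi h⟩, fun x hx => ?_⟩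
  · exact ext4 (by simp [rf0_c, rf1_c]) (by simp [rf0_c, rf1_c]) (by simp [rf0_c, rf1_c])
      (by simp [rf0_c, rf1_c])
  · have := (rf0_c (vQ (π / 4))).1
    rw [e] at this
    linarith
  · have := (rf1_c (vQ (π / 4))).2.1
    rw [e] at this
    linarith
  · have := (rf0_c (vQ (π / 4))).1
    rw [e, (rf1_c _).1] at this
    linarith
  · rw [fx] at hx ⊢
    have e : rf1 '' (Xi l ∩ {y | y 0 = 0}) = Xi l ∩ {y | y 0 = 0} :=
      img_eq rf1_rf1 fun z hz => ⟨Xi_rf1 h hz.1, (rf1_c z).1.trans hz.2⟩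
    have k := rf1.toHomeomorph.image_connectedComponentIn hx
    change rf1 '' _ = connectedComponentIn (rf1 '' _) (rf1 x) at k
    rw [k, e, ← connectedComponentIn_eq (oval_Xi h hx.1 hx.2)]

end Pool.Agent.Lib.MP_16d934_gt.X
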